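import Mathlib

set_option autoImplicit false
set_option linter.unusedVariables false
set_option linter.style.haveILetI false
set_option linter.unusedSimpArgs false

namespace Pool.Agent.Helper95

open Combinatorics

/-- A pseudo-ultrametric space with values in a bounded lattice `L`
(`t x y` is the largest `r` such that `x` and `y` are `r`-close). -/
structure UM (L : Type) [Lattice L] [BoundedOrder L] (X : Type) where
  t : X → X → L
  refl' : ∀ x, t x x = ⊤
  symm' : ∀ x y, t x y = t y x
  tri' : ∀ x y z, t x y ⊓ t y z ≤ t x z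

namespace UM

variable {L : Type} [Lattice L] [BoundedOrder L]
variable {X Y Z : Type}

/-- isometric embedding -/
def Iso (a : UM L X) (b : UM L Y) (f : X → Y) : Prop := ∀ x y, b.t (f x) (f y) = a.t x y

/-- non-expanding map -/
def Hom (a : UM L X) (b : UM L Y) (f : X → Y) : Prop := ∀ x y, a.t x y ≤ b.t (f x) (f y)

theorem Iso.comp {a : UM L X} {b : UM L Y} {c : UM L Z} {f : X → Y} {g : Y → Z}
    (hf : Iso a b f) (hg : Iso b c g) : Iso a c (g ∘ f) := by
  intro x y
  simp only [Function.comp]
  rw [hg, hf]

/-- pullback of an ultrametric -/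
def comap (b : UM L Y) (f : X → Y) : UM L X where
  t x y := b.t (f x) (f y)
  refl' x := b.refl' _
  symm' x y := b.symm' _ _
  tri' x y z := b.tri' _ _ _

/-- binary product -/
def prod (a : UM L X) (b : UM L Y) : UM L (X × Y) where
  t p q := a.t p.1 q.1 ⊓ b.t p.2 q.2
  refl' p := by simp [a.refl', b.refl']
  symm' p q := by rw [a.symm', b.symm']
  tri' p q r := by
    apply le_inf
    · refine le_trans ?_ (a.tri' p.1 q.1 r.1)
      exact le_inf (inf_le_left.trans inf_le_left) (inf_le_right.trans inf_le_left)
    · refine le_trans ?_ (b.tri' p.2 q.2 r.2)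
      exact le_inf (inf_le_left.trans inf_le_right) (inf_le_right.trans inf_le_right)

/-- finite product -/
def pi {ι : Type} [Fintype ι] {Xs : ι → Type} (a : ∀ i, UM L (Xs i)) : UM L (∀ i, Xs i) where
  t p q := Finset.univ.inf fun i => (a i).t (p i) (q i)
  refl' p := by
    simp [(a _).refl']
  symm' p q := by
    congr 1
    funext i
    exact (a i).symm' _ _
  tri' p q r := by
    refine Finset.le_inf fun i _ => ?_
    refine le_trans ?_ ((a i).tri' (p i) (q i) (r i))
    exact inf_le_inf (Finset.inf_le (Finset.mem_univ i)) (Finset.inf_le (Finset.mem_univ i))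

/-- Hales-Jewett step -/
theorem hj_step {G Y : Type} [Finite G] [Finite Y] (a : UM L G) (b : UM L Y) :
    ∃ (ι : Type) (_ : Fintype ι),
      ∀ Θ : (G × (ι → Y)) → (G × (ι → Y)) → Prop,
        ∃ e : G × Y → G × (ι → Y),
          Iso (a.prod b) (a.prod (pi fun _ : ι => b)) e ∧
          ∀ g g' : G,
            (∀ f : G → Y, Hom a b f → Θ (e (g, f g)) (e (g', f g'))) ∨
            (∀ f : G → Y, Hom a b f → ¬ Θ (e (g, f g)) (e (g', f g'))) := by
  classical
  let Q : Type := {f : G → Y // Hom a b f}
  haveI : Finite Q := inferInstance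
  obtain ⟨ι, hι, hmono⟩ := Line.exists_mono_in_high_dimension Q (G → G → Prop)
  refine ⟨ι, hι, fun Θ => ?_⟩
  obtain ⟨l, c, hc⟩ := hmono (fun w g g' => Θ (g, fun i => (w i).1 g) (g', fun i => (w i).1 g'))
  let e : G × Y → G × (ι → Y) := fun p => (p.1, fun i => match l.idxFun i with
    | none => p.2
    | some f => f.1 p.1)
  have key : ∀ (f : Q) (g : G), e (g, f.1 g) = (g, fun i => (l f i).1 g) := by
    intro f g
    simp only [e, Line.coe_apply, Prod.mk.injEq, true_and]
    funext i
    cases l.idxFun i <;> rfl
  refine ⟨e, ?_, ?_⟩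
  · rintro ⟨g, y⟩ ⟨g', y'⟩
    show a.t g g' ⊓ (Finset.univ.inf fun i => b.t _ _) = a.t g g' ⊓ b.t y y'
    apply le_antisymm
    · apply le_inf inf_le_left
      obtain ⟨i, hi⟩ := l.proper
      refine inf_le_right.trans ((Finset.inf_le (Finset.mem_univ i)).trans ?_)
      simp only [e, hi]
      exact le_refl _
    · apply le_inf inf_le_left
      refine Finset.le_inf fun i _ => ?_
      cases hi : l.idxFun i with
      | none =>
        simp only [e, hi]
        exact inf_le_right
      | some f =>
        simp only [e, hi]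
        exact inf_le_left.trans (f.2 g g')
  · intro g g'
    by_cases h : c g g'
    · left
      intro f hf
      have h1 := key ⟨f, hf⟩ g
      have h2 := key ⟨f, hf⟩ g'
      simp only at h1 h2
      rw [h1, h2]
      have := hc ⟨f, hf⟩
      rw [← this] at h
      exact h
    · right
      intro f hf
      have h1 := key ⟨f, hf⟩ g
      have h2 := key ⟨f, hf⟩ g'
      simp only at h1 h2
      rw [h1, h2]
      have := hc ⟨f, hf⟩
      rw [← this] at h
      exact h

/-- The wedge of two copies of `G` at the point `h`. -/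
def wedge {G : Type} (a : UM L G) (h : G) : UM L (G × Bool) where
  t p q := if p.2 = q.2 then a.t p.1 q.1 else a.t p.1 h ⊓ a.t h q.1
  refl' p := by simp [a.refl']
  symm' p q := by
    rcases p with ⟨x, i⟩
    rcases q with ⟨y, j⟩
    by_cases hij : i = j
    · subst hij
      simp [a.symm' x y]
    · have hji : ¬ j = i := fun h => hij h.symm
      simp only [hij, hji, if_false]
      rw [a.symm' x h, a.symm' h y, inf_comm]
  tri' p q r := by
    rcases p with ⟨x, i⟩
    rcases q with ⟨y, j⟩
    rcases r with ⟨z, k⟩
    by_cases hij : i = j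
    · subst hij
      by_cases hjk : i = k
      · subst hjk
        simpa using a.tri' x y z
      · simp only [hjk, if_true, if_false]
        refine le_inf ?_ (inf_le_right.trans inf_le_right)
        exact le_trans (inf_le_inf le_rfl inf_le_left) (a.tri' x y h)
    · by_cases hik : i = k
      · subst hik
        have hji : ¬ j = i := fun h => hij h.symm
        simp only [hij, hji, if_true, if_false]
        refine le_trans ?_ (a.tri' x h z)
        exact inf_le_inf inf_le_left inf_le_right
      · have hjk : j = k := by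
          cases i <;> cases j <;> cases k <;> simp_all
        subst hjk
        simp only [hij, if_true, if_false]
        refine le_inf (inf_le_left.trans inf_le_left) ?_
        refine le_trans ?_ (a.tri' h y z)
        exact inf_le_inf inf_le_right le_rfl

/-- Twisted product of `W` and `Z`. -/
def twist {W Z : Type} (w : UM L W) (z : UM L Z) (ρ : W → L → L)
    (h1 : ∀ x, ρ x ⊤ = ⊤)
    (h2 : ∀ x m m' m'', m ⊓ m' ≤ m'' → ρ x m ⊓ ρ x m' ≤ ρ x m'')
    (h3 : ∀ x x' m, w.t x x' ⊓ ρ x m ≤ ρ x' m) : UM L (W × Z) where
  t p q := w.t p.1 q.1 ⊓ ρ p.1 (z.t p.2 q.2)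
  refl' p := by simp [w.refl', z.refl', h1]
  symm' p q := by
    rw [z.symm' q.2 p.2]
    apply le_antisymm
    · apply le_inf
      · rw [w.symm' q.1 p.1]; exact inf_le_left
      · exact h3 _ _ _
    · apply le_inf
      · rw [w.symm' q.1 p.1]; exact inf_le_left
      · exact h3 _ _ _
  tri' p q r := by
    have hw : w.t p.1 q.1 ⊓ w.t q.1 r.1 ≤ w.t p.1 r.1 := w.tri' _ _ _
    have hρ : ρ q.1 (z.t p.2 q.2) ⊓ ρ q.1 (z.t q.2 r.2) ≤ ρ q.1 (z.t p.2 r.2) :=
      h2 _ _ _ _ (z.tri' _ _ _)
    have h4 : w.t p.1 q.1 ⊓ ρ p.1 (z.t p.2 q.2) ≤ ρ q.1 (z.t p.2 q.2) := h3 _ _ _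
    have h5 : w.t q.1 p.1 ⊓ ρ q.1 (z.t p.2 r.2) ≤ ρ p.1 (z.t p.2 r.2) := h3 _ _ _
    rw [w.symm' q.1 p.1] at h5
    apply le_inf
    · refine le_trans ?_ hw
      exact inf_le_inf inf_le_left inf_le_left
    · refine le_trans (le_inf (inf_le_left.trans inf_le_left) ?_) h5
      refine le_trans (le_inf (inf_le_left.trans h4) (inf_le_right.trans inf_le_right)) hρ

open Classical in
/-- the distortion function of the gadget -/
noncomputable def rho {G : Type} (a : UM L G) (g g' : G) (p : G × Bool) (m : L) : L :=
  if m = ⊤ then ⊤ else a.t p.1 g ⊓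
    (if p.2 = false then m else if a.t g g' ≤ m then ⊤ else a.t g g' ⊓ m)

theorem rho_top {G : Type} (a : UM L G) (g g' : G) (p : G × Bool) :
    rho a g g' p ⊤ = ⊤ := by simp [rho]

theorem rho_inf {G : Type} (a : UM L G) (g g' : G) (p : G × Bool) (m m' m'' : L)
    (h : m ⊓ m' ≤ m'') : rho a g g' p m ⊓ rho a g g' p m' ≤ rho a g g' p m'' := by
  classical
  -- monotonicity
  have mono : ∀ m m' : L, m ≤ m' → rho a g g' p m ≤ rho a g g' p m' := by
    intro m m' hm
    unfold rho
    by_cases hm' : m' = ⊤
    · simp [hm']
    · have hm1 : m ≠ ⊤ := by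
        rintro rfl
        exact hm' (top_le_iff.mp hm)
      simp only [hm', hm1, if_false]
      apply inf_le_inf le_rfl
      by_cases hp : p.2 = false
      · simp [hp, hm]
      · simp only [if_neg hp]
        by_cases ht : a.t g g' ≤ m
        · have : a.t g g' ≤ m' := ht.trans hm
          simp [ht, this]
        · simp only [ht, if_false]
          by_cases ht' : a.t g g' ≤ m'
          · simp [ht']
          · simp only [ht', if_false]
            exact inf_le_inf le_rfl hm
  by_cases hm'' : m'' = ⊤
  · subst hm''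
    rw [rho_top]; exact le_top
  by_cases hm : m = ⊤
  · subst hm
    rw [top_inf_eq] at h
    exact inf_le_right.trans (mono _ _ h)
  by_cases hm' : m' = ⊤
  · subst hm'
    rw [inf_top_eq] at h
    exact inf_le_left.trans (mono _ _ h)
  unfold rho
  simp only [hm'', hm, hm', if_false]
  apply le_inf (inf_le_left.trans inf_le_left)
  refine (inf_le_inf inf_le_right inf_le_right).trans ?_
  by_cases hp : p.2 = false
  · simpa [hp] using h
  · simp only [if_neg hp]
    by_cases ht : a.t g g' ≤ m
    · by_cases ht' : a.t g g' ≤ m'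
      · have : a.t g g' ≤ m'' := (le_inf ht ht').trans h
        simp [this]
      · simp only [ht, ht', if_true, if_false]
        by_cases ht'' : a.t g g' ≤ m''
        · simp [ht'']
        · simp only [ht'', if_false, top_inf_eq]
          exact le_inf inf_le_left ((inf_le_inf ht le_rfl).trans h)
    · by_cases ht' : a.t g g' ≤ m'
      · simp only [ht, ht', if_true, if_false]
        by_cases ht'' : a.t g g' ≤ m''
        · simp [ht'']
        · simp only [ht'', if_false, inf_top_eq]
          refine le_inf inf_le_left (le_trans ?_ h)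
          exact le_inf inf_le_right (inf_le_left.trans ht')
      · simp only [ht, ht', if_false]
        by_cases ht'' : a.t g g' ≤ m''
        · simp [ht'']
        · simp only [ht'', if_false]
          refine le_inf (inf_le_left.trans inf_le_left) (le_trans ?_ h)
          exact inf_le_inf inf_le_right inf_le_right

theorem rho_lip {G : Type} (a : UM L G) (g g' : G) (p q : G × Bool) (m : L) :
    (a.wedge g').t p q ⊓ rho a g g' p m ≤ rho a g g' q m := by
  classical
  by_cases hm : m = ⊤
  · simp [rho, hm]
  unfold rho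
  simp only [hm, if_false]
  rcases p with ⟨x, i⟩
  rcases q with ⟨y, j⟩
  by_cases hij : i = j
  · subst hij
    simp only [wedge, if_true]
    refine le_inf ?_ (inf_le_right.trans inf_le_right)
    refine le_trans ?_ (a.tri' y x g)
    rw [a.symm' y x]
    exact inf_le_inf le_rfl inf_le_left
  · simp only [wedge, hij, if_false]
    have hxg : (a.t x g' ⊓ a.t g' y) ⊓ a.t x g ≤ a.t g g' := by
      refine le_trans ?_ (a.tri' g x g')
      rw [a.symm' g x]
      exact le_inf inf_le_right (inf_le_left.trans inf_le_left)
    have hyg : (a.t x g' ⊓ a.t g' y) ⊓ a.t x g ≤ a.t y g := by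
      refine le_trans ?_ (a.tri' y g' g)
      rw [a.symm' y g', a.symm' g' g]
      exact le_inf (inf_le_left.trans inf_le_right) hxg
    rw [← inf_assoc]
    refine le_inf (inf_le_left.trans hyg) ?_
    refine (inf_le_inf hxg le_rfl).trans ?_
    cases i
    · have hj : j = true := by cases j <;> simp_all
      subst hj
      by_cases ht : a.t g g' ≤ m
      · simp [ht]
      · simp [ht]
    · have hj : j = false := by cases j <;> simp_all
      subst hj
      by_cases ht : a.t g g' ≤ m
      · simp [ht]
      · simp [ht]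

/-- the gadget -/
noncomputable def gadget {G : Type} (a : UM L G) (g g' : G) : UM L ((G × Bool) × G) :=
  twist (a.wedge g') a (rho a g g') (rho_top a g g') (rho_inf a g g') (rho_lip a g g')

theorem gadget_t {G : Type} (a : UM L G) (g g' : G) (p q : (G × Bool) × G) :
    (gadget a g g').t p q =
      (a.wedge g').t p.1 q.1 ⊓ rho a g g' p.1 (a.t p.2 q.2) := rfl

/-- Dichotomy. -/
theorem dichotomy {G : Type} [Finite G] [Nonempty G] (a : UM L G) :
    ∃ (H : Type) (_ : Finite H) (_ : Nonempty H) (h : UM L H),
      ∀ Θ : H → H → Prop, Equivalence Θ → (∀ x y, h.t x y = ⊤ → Θ x y) → ∀ t : L,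
        (∃ f : G → H, Iso a h f ∧ ∀ x y, t ≤ a.t x y → Θ (f x) (f y)) ∨
        (∃ f : G → H, Iso a h f ∧ ∀ x y, a.t x y = t → ¬ Θ (f x) (f y)) := by
  classical
  haveI := Fintype.ofFinite G
  let Y : Type := (q : G × G) → ((G × Bool) × G)
  let b : UM L Y := pi fun q : G × G => gadget a q.1 q.2
  obtain ⟨ι, hι, hstep⟩ := hj_step a b
  refine ⟨G × (ι → Y), inferInstance, inferInstance, a.prod (pi fun _ : ι => b), ?_⟩
  intro Θ hΘ hrefl t
  obtain ⟨e, he, hd⟩ := hstep Θ
  by_cases hq : ∃ g g' : G, a.t g g' = t ∧
      (∀ f : G → Y, Hom a b f → Θ (e (g, f g)) (e (g', f g')))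
  · left
    obtain ⟨g, g', htq, hall⟩ := hq
    -- homs through coordinate (g, g')
    let y0 : Y := fun q => ((g, false), g)
    let F : Bool → G → G → Y := fun i z x => Function.update y0 (g, g') ((x, i), z)
    have hFhom : ∀ i z, Hom a b (F i z) := by
      intro i z x x'
      refine Finset.le_inf fun q _ => ?_
      by_cases hqq : q = (g, g')
      · subst hqq
        simp only [F, Function.update_self]
        rw [gadget_t]
        simp [wedge, a.refl', rho_top]
      · simp only [F, Function.update_of_ne hqq]
        rw [(gadget a q.1 q.2).refl']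
        exact le_top
    have hconst : ∀ y : Y, Hom a b (fun _ => y) := by
      intro y x x'
      show a.t x x' ≤ b.t y y
      rw [b.refl']
      exact le_top
    -- moves inside {g} × Y
    have hmove : ∀ f : G → Y, Hom a b f → Θ (e (g, f g)) (e (g, f g')) := by
      intro f hf
      have h1 := hall f hf
      have h2 := hall (fun _ => f g') (hconst (f g'))
      exact hΘ.trans h1 (hΘ.symm h2)
    have htop : ∀ y y' : Y, b.t y y' = ⊤ → Θ (e (g, y)) (e (g, y')) := by
      intro y y' hyy
      apply hrefl
      rw [he]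
      show a.t g g ⊓ b.t y y' = ⊤
      rw [a.refl', hyy, inf_top_eq]
    have hbt : ∀ i j z z' x x', b.t (F i z x) (F j z' x') =
        (gadget a g g').t ((x, i), z) ((x', j), z') := by
      intro i j z z' x x'
      apply le_antisymm
      · refine (Finset.inf_le (Finset.mem_univ (g, g'))).trans ?_
        simp only [F, Function.update_self]
        exact le_rfl
      · refine Finset.le_inf fun q _ => ?_
        by_cases hqq : q = (g, g')
        · subst hqq
          simp only [F, Function.update_self]
          exact le_rfl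
        · simp only [F, Function.update_of_ne hqq]
          rw [(gadget a q.1 q.2).refl']
          exact le_top
    -- path from (g, false, z) to (g, true, z)
    have hpath : ∀ z, Θ (e (g, F false z g)) (e (g, F true z g)) := by
      intro z
      have h1 := hmove _ (hFhom false z)
      have h2 := hmove _ (hFhom true z)
      have h3 : Θ (e (g, F false z g')) (e (g, F true z g')) := by
        apply htop
        rw [hbt, gadget_t]
        simp [wedge, a.refl', rho_top]
      exact hΘ.trans h1 (hΘ.trans h3 (hΘ.symm h2))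
    refine ⟨fun z => e (g, F false z g), ?_, ?_⟩
    · intro z z'
      rw [he]
      show a.t g g ⊓ b.t _ _ = _
      rw [hbt, gadget_t, a.refl', top_inf_eq]
      simp only [wedge, if_true, a.refl', top_inf_eq, rho]
      by_cases hz : a.t z z' = ⊤
      · simp [hz]
      · simp [hz]
    · intro z z' hz
      refine hΘ.trans (hpath z) (hΘ.trans ?_ (hΘ.symm (hpath z')))
      apply htop
      rw [hbt, gadget_t]
      simp only [wedge, if_true, a.refl', top_inf_eq, rho]
      rw [htq]
      simp [hz]
  · right
    push Not at hq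
    obtain ⟨g0⟩ := (inferInstance : Nonempty G)
    let y0 : Y := fun q => ((g0, false), g0)
    have hconst : Hom a b (fun _ : G => y0) := by
      intro x x'
      show a.t x x' ≤ b.t y0 y0
      rw [b.refl']
      exact le_top
    refine ⟨fun x => e (x, y0), ?_, ?_⟩
    · intro x y
      rw [he]
      show a.t x y ⊓ b.t y0 y0 = _
      rw [b.refl', inf_top_eq]
    · intro x y hxy
      obtain ⟨f, hf, hnf⟩ := hq x y hxy
      rcases hd x y with h | h
      · exact absurd (h f hf) hnf
      · exact h _ hconst

theorem Iso.top {X Y : Type} {a : UM L X} {b : UM L Y} {f : X → Y} (hf : Iso a b f)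
    {x y : X} (h : a.t x y = ⊤) : b.t (f x) (f y) = ⊤ := by rw [hf, h]

theorem multi (S : Finset L) : ∀ {G : Type} [Finite G] [Nonempty G] (a : UM L G),
    ∃ (H : Type) (_ : Finite H) (_ : Nonempty H) (h : UM L H),
      ∀ Θ : H → H → Prop, Equivalence Θ → (∀ x y, h.t x y = ⊤ → Θ x y) →
        ∃ f : G → H, Iso a h f ∧ ∀ t ∈ S,
          (∀ x y, t ≤ a.t x y → Θ (f x) (f y)) ∨ (∀ x y, a.t x y = t → ¬ Θ (f x) (f y)) := by
  classical
  induction S using Finset.induction_on with
  | empty =>
    intro G _ _ a
    refine ⟨G, inferInstance, inferInstance, a, fun Θ _ _ => ⟨id, fun _ _ => rfl, ?_⟩⟩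
    simp
  | insert t S ht ih =>
    intro G _ _ a
    obtain ⟨H1, hf1, hn1, h1, hH1⟩ := ih a
    obtain ⟨H2, hf2, hn2, h2, hH2⟩ := dichotomy h1
    refine ⟨H2, hf2, hn2, h2, fun Θ hΘ hrefl => ?_⟩
    have main : ∃ f : H1 → H2, Iso h1 h2 f ∧
        ((∀ x y, t ≤ h1.t x y → Θ (f x) (f y)) ∨ (∀ x y, h1.t x y = t → ¬ Θ (f x) (f y))) := by
      rcases hH2 Θ hΘ hrefl t with ⟨f, hf, hf'⟩ | ⟨f, hf, hf'⟩
      · exact ⟨f, hf, Or.inl hf'⟩
      · exact ⟨f, hf, Or.inr hf'⟩
    obtain ⟨f2, hf2i, hf2d⟩ := main
    obtain ⟨f1, hf1i, hf1d⟩ := hH1 (fun x y => Θ (f2 x) (f2 y))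
      ⟨fun x => hΘ.refl _, fun h => hΘ.symm h, fun h h' => hΘ.trans h h'⟩
      (fun x y hxy => hrefl _ _ (hf2i.top hxy))
    refine ⟨f2 ∘ f1, hf1i.comp hf2i, ?_⟩
    intro s hs
    rcases Finset.mem_insert.mp hs with rfl | hs
    · rcases hf2d with h | h
      · left
        intro x y hxy
        apply h
        rw [hf1i]; exact hxy
      · right
        intro x y hxy
        apply h
        rw [hf1i]; exact hxy
    · exact hf1d s hs

open Classical in
/-- test space: all distances occur and all triangles occur -/
noncomputable def test (L : Type) [Lattice L] [BoundedOrder L] [Fintype L] :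
    UM L ({m : L // m ≠ ⊤} → Fin 3) where
  t φ ψ := Finset.univ.inf fun m => if φ m = ψ m then (⊤ : L) else m.1
  refl' φ := by simp
  symm' φ ψ := by
    congr 1
    funext m
    simp [eq_comm]
  tri' φ ψ χ := by
    refine Finset.le_inf fun m _ => ?_
    by_cases h : φ m = χ m
    · simp [h]
    · simp only [h, if_false]
      by_cases h1 : φ m = ψ m
      · have h2 : ψ m ≠ χ m := fun h2 => h (h1.trans h2)
        refine inf_le_right.trans ((Finset.inf_le (Finset.mem_univ m)).trans ?_)
        simp [h2]
      · refine inf_le_left.trans ((Finset.inf_le (Finset.mem_univ m)).trans ?_)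
        simp [h1]

theorem test_top [Fintype L] (φ ψ : {m : L // m ≠ ⊤} → Fin 3)
    (h : (test L).t φ ψ = ⊤) : φ = ψ := by
  classical
  funext m
  by_contra hm
  have h1 : (test L).t φ ψ ≤ m.1 := by
    refine (Finset.inf_le (Finset.mem_univ m)).trans ?_
    simp [hm]
  rw [h, top_le_iff] at h1
  exact m.2 h1

open Classical in
/-- a basic function taking value `c` at `m` and `0` elsewhere -/
noncomputable def bump (m : L) (c : Fin 3) : {m : L // m ≠ ⊤} → Fin 3 := fun k => if k.1 = m then c else 0

theorem test_bump [Fintype L] (m : L) (c d : Fin 3) (hcd : c ≠ d) :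
    (test L).t (bump m c) (bump m d) = m := by
  classical
  by_cases hm : m = ⊤
  · subst hm
    have : (bump (⊤ : L) c) = bump ⊤ d := by
      funext k
      simp [bump, k.2]
    rw [this, (test L).refl']
  · apply le_antisymm
    · refine (Finset.inf_le (Finset.mem_univ ⟨m, hm⟩)).trans ?_
      simp [bump, hcd]
    · refine Finset.le_inf fun k _ => ?_
      by_cases hk : k.1 = m
      · simp [bump, hk]
        split_ifs <;> simp
      · simp [bump, hk]

theorem test_tri [Fintype L] (s t : L) :
    ∃ x y z : {m : L // m ≠ ⊤} → Fin 3, (test L).t x y = s ∧ (test L).t y z = t ∧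
      (test L).t x z = s ⊓ t := by
  classical
  by_cases hst : s = t
  · subst hst
    refine ⟨bump s 0, bump s 1, bump s 2, test_bump _ _ _ (by decide), test_bump _ _ _ (by decide),
      ?_⟩
    rw [test_bump _ _ _ (by decide), inf_idem]
  · let z : {m : L // m ≠ ⊤} → Fin 3 := fun k => if k.1 = s then 1 else if k.1 = t then 1 else 0
    refine ⟨bump s 0, bump s 1, z, test_bump _ _ _ (by decide), ?_, ?_⟩
    · by_cases ht : t = ⊤
      · subst ht
        have : bump s 1 = z := by
          funext k
          simp [bump, z, k.2]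
        rw [this, (test L).refl']
      · apply le_antisymm
        · refine (Finset.inf_le (Finset.mem_univ ⟨t, ht⟩)).trans ?_
          have : ¬ t = s := fun h => hst h.symm
          simp [bump, z, this]
        · refine Finset.le_inf fun k _ => ?_
          by_cases hk : k.1 = s
          · simp [bump, z, hk]
          · by_cases hk' : k.1 = t
            · simp only [bump, z, hk, hk', if_true, if_false]
              split_ifs <;> simp
            · simp [bump, z, hk, hk']
    · apply le_antisymm
      · apply le_inf
        · by_cases hs : s = ⊤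
          · subst hs; exact le_top
          · refine (Finset.inf_le (Finset.mem_univ ⟨s, hs⟩)).trans ?_
            simp [bump, z]
        · by_cases ht : t = ⊤
          · subst ht; exact le_top
          · refine (Finset.inf_le (Finset.mem_univ ⟨t, ht⟩)).trans ?_
            have : ¬ t = s := fun h => hst h.symm
            simp [bump, z, this]
      · refine Finset.le_inf fun k _ => ?_
        by_cases hk : k.1 = s
        · simp only [hk]
          split_ifs
          · exact le_top
          · exact inf_le_left
        · by_cases hk' : k.1 = t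
          · simp only [hk']
            split_ifs
            · exact le_top
            · exact inf_le_right
          · simp [bump, z, hk, hk']

/-- canonical Ramsey theorem -/
theorem canonical [Finite L] {G : Type} [Finite G] [Nonempty G] (a : UM L G) :
    ∃ (H : Type) (_ : Finite H) (_ : Nonempty H) (h : UM L H),
      ∀ Θ : H → H → Prop, Equivalence Θ → (∀ x y, h.t x y = ⊤ → Θ x y) →
        ∃ f : G → H, Iso a h f ∧ ∃ r : L, ∀ x y, Θ (f x) (f y) ↔ r ≤ a.t x y := by
  classical
  haveI := Fintype.ofFinite L
  obtain ⟨H, hfin, hne, h, hH⟩ := multi (Finset.univ : Finset L) (a.prod (test L))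
  refine ⟨H, hfin, hne, h, fun Θ hΘ hrefl => ?_⟩
  obtain ⟨F, hF, hd⟩ := hH Θ hΘ hrefl
  obtain ⟨g0⟩ := (inferInstance : Nonempty G)
  let K := G × ({m : L // m ≠ ⊤} → Fin 3)
  let b : UM L K := a.prod (test L)
  let T : L → Prop := fun t => ∀ x y : K, t ≤ b.t x y → Θ (F x) (F y)
  have hT : ∀ x y : K, Θ (F x) (F y) → T (b.t x y) := by
    intro x y hxy
    rcases hd (b.t x y) (Finset.mem_univ _) with h' | h'
    · exact h'
    · exact absurd hxy (h' x y rfl)
  have hTtop : T ⊤ := by
    intro x y hxy
    apply hrefl
    rw [hF]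
    exact top_le_iff.mp hxy
  have hTinf : ∀ s t, T s → T t → T (s ⊓ t) := by
    intro s t hs ht
    obtain ⟨x, y, z, hxy, hyz, hxz⟩ := test_tri (L := L) s t
    have e1 : ∀ u v, b.t (g0, u) (g0, v) = (test L).t u v := by
      intro u v
      show a.t g0 g0 ⊓ _ = _
      rw [a.refl', top_inf_eq]
    have h1 : Θ (F (g0, x)) (F (g0, y)) := hs _ _ (by rw [e1, hxy])
    have h2 : Θ (F (g0, y)) (F (g0, z)) := ht _ _ (by rw [e1, hyz])
    have h3 := hT _ _ (hΘ.trans h1 h2)
    rw [e1, hxz] at h3
    exact h3
  let r : L := (Finset.univ.filter T).inf id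
  have hr : T r := by
    apply Finset.inf_induction hTtop (fun s hs t ht => hTinf s t hs ht)
    intro t ht
    exact (Finset.mem_filter.mp ht).2
  let φ0 : {m : L // m ≠ ⊤} → Fin 3 := fun _ => 0
  refine ⟨fun x => F (x, φ0), ?_, r, ?_⟩
  · intro x y
    rw [hF]
    show a.t x y ⊓ (test L).t φ0 φ0 = _
    rw [(test L).refl', inf_top_eq]
  · intro x y
    have e2 : b.t (x, φ0) (y, φ0) = a.t x y := by
      show a.t x y ⊓ (test L).t φ0 φ0 = _
      rw [(test L).refl', inf_top_eq]
    constructor
    · intro hxy
      have h3 := hT _ _ hxy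
      rw [e2] at h3
      exact Finset.inf_le (f := id) (Finset.mem_filter.mpr ⟨Finset.mem_univ _, h3⟩)
    · intro hxy
      apply hr
      rw [e2]; exact hxy

/-- identify points at distance `⊤` -/
def topSetoid {X : Type} (a : UM L X) : Setoid X where
  r x y := a.t x y = ⊤
  iseqv := ⟨a.refl', fun {x y} h => by rw [a.symm', h], fun {x y z} h h' => by
    have := a.tri' x y z
    rw [h, h', top_inf_eq, top_le_iff] at this
    exact this⟩

theorem t_congr_left {X : Type} (a : UM L X) {x x' : X} (y : X) (h : a.t x x' = ⊤) :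
    a.t x y = a.t x' y := by
  apply le_antisymm
  · have := a.tri' x' x y
    rw [a.symm' x' x, h, top_inf_eq] at this
    exact this
  · have := a.tri' x x' y
    rw [h, top_inf_eq] at this
    exact this

/-- the separated quotient -/
def sep {X : Type} (a : UM L X) : UM L (Quotient a.topSetoid) where
  t := Quotient.lift₂ a.t (by
    intro x y x' y' hx hy
    rw [a.t_congr_left y hx, a.symm' x' y, a.t_congr_left x' hy, a.symm' y' x'])
  refl' := by
    intro x
    induction x using Quotient.inductionOn
    exact a.refl' _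
  symm' := by
    intro x y
    induction x using Quotient.inductionOn
    induction y using Quotient.inductionOn
    exact a.symm' _ _
  tri' := by
    intro x y z
    induction x using Quotient.inductionOn
    induction y using Quotient.inductionOn
    induction z using Quotient.inductionOn
    exact a.tri' _ _ _

theorem sep_mk {X : Type} (a : UM L X) (x y : X) :
    a.sep.t (Quotient.mk a.topSetoid x) (Quotient.mk a.topSetoid y) = a.t x y := rfl

theorem sep_top {X : Type} (a : UM L X) (x y : Quotient a.topSetoid) (h : a.sep.t x y = ⊤) :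
    x = y := by
  induction x using Quotient.inductionOn
  induction y using Quotient.inductionOn
  exact Quotient.sound h

/-- canonical Ramsey theorem, separated version -/
theorem canonical_sep [Finite L] {G : Type} [Finite G] [Nonempty G] (a : UM L G) :
    ∃ (H : Type) (_ : Finite H) (_ : Nonempty H) (h : UM L H),
      (∀ x y, h.t x y = ⊤ → x = y) ∧
      ∀ Θ : H → H → Prop, Equivalence Θ →
        ∃ f : G → H, Iso a h f ∧ ∃ r : L, ∀ x y, Θ (f x) (f y) ↔ r ≤ a.t x y := by
  obtain ⟨H, hfin, hne, h, hH⟩ := canonical a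
  refine ⟨Quotient h.topSetoid, inferInstance, hne.map (Quotient.mk _), h.sep, h.sep_top, ?_⟩
  intro Θ hΘ
  obtain ⟨f, hf, r, hr⟩ := hH (fun x y => Θ (Quotient.mk _ x) (Quotient.mk _ y))
    ⟨fun x => hΘ.refl _, fun h => hΘ.symm h, fun h h' => hΘ.trans h h'⟩
    (fun x y hxy => by
      have : Quotient.mk h.topSetoid x = Quotient.mk h.topSetoid y := Quotient.sound hxy
      rw [this]; exact hΘ.refl _)
  exact ⟨fun x => Quotient.mk _ (f x), fun x y => by rw [sep_mk, hf], r, hr⟩

end UM

end Pool.Agent.Helper95
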