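import Mathlib

set_option autoImplicit false
set_option linter.unusedVariables false
set_option linter.style.haveILetI false
set_option linter.unusedSimpArgs false

namespace Pool.Agent.Helper95

open FirstOrder FirstOrder.Language

/-- The standard model in the ring language, the negation symbol being the identity. -/
instance natStr : Language.ring.Structure ℕ where
  funMap := fun {n} f =>
    match n, f with
    | _, ringFunc.add => fun x => x 0 + x 1
    | _, ringFunc.mul => fun x => x 0 * x 1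
    | _, ringFunc.neg => fun x => x 0
    | _, ringFunc.zero => fun _ => 0
    | _, ringFunc.one => fun _ => 1

/-- definable predicates on the standard model -/
def D {α : Type} (P : (α → ℕ) → Prop) : Prop :=
  ∃ φ : Language.ring.Formula α, ∀ v, φ.Realize v ↔ P v

/-- definable by a term -/
def DT {α : Type} (t : (α → ℕ) → ℕ) : Prop :=
  ∃ τ : Language.ring.Term α, ∀ v, τ.realize v = t v

namespace DT

variable {α : Type} {s t : (α → ℕ) → ℕ}

theorem var (a : α) : DT (fun v : α → ℕ => v a) := ⟨Term.var a, fun v => rfl⟩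

theorem zero : DT (fun _ : α → ℕ => 0) := ⟨0, fun v => by
  rw [Ring.zero_def]; simp only [Term.realize_constants]; rfl⟩

theorem one : DT (fun _ : α → ℕ => 1) := ⟨1, fun v => by
  rw [Ring.one_def]; simp only [Term.realize_constants]; rfl⟩

theorem add (hs : DT s) (ht : DT t) : DT (fun v => s v + t v) := by
  obtain ⟨σ, hσ⟩ := hs
  obtain ⟨τ, hτ⟩ := ht
  refine ⟨σ + τ, fun v => ?_⟩
  rw [Ring.add_def, Term.realize_functions_apply₂, hσ, hτ]
  rfl

theorem mul (hs : DT s) (ht : DT t) : DT (fun v => s v * t v) := by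
  obtain ⟨σ, hσ⟩ := hs
  obtain ⟨τ, hτ⟩ := ht
  refine ⟨σ * τ, fun v => ?_⟩
  rw [Ring.mul_def, Term.realize_functions_apply₂, hσ, hτ]
  rfl

end DT

namespace D

variable {α β : Type} {P Q : (α → ℕ) → Prop}

theorem congr (hP : D P) (h : ∀ v, P v ↔ Q v) : D Q := by
  obtain ⟨φ, hφ⟩ := hP
  exact ⟨φ, fun v => (hφ v).trans (h v)⟩

theorem and (hP : D P) (hQ : D Q) : D (fun v => P v ∧ Q v) := by
  obtain ⟨φ, hφ⟩ := hP
  obtain ⟨ψ, hψ⟩ := hQ
  exact ⟨φ ⊓ ψ, fun v => by rw [Formula.realize_inf, hφ, hψ]⟩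

theorem or (hP : D P) (hQ : D Q) : D (fun v => P v ∨ Q v) := by
  obtain ⟨φ, hφ⟩ := hP
  obtain ⟨ψ, hψ⟩ := hQ
  exact ⟨φ ⊔ ψ, fun v => by rw [Formula.realize_sup, hφ, hψ]⟩

theorem not (hP : D P) : D (fun v => ¬ P v) := by
  obtain ⟨φ, hφ⟩ := hP
  exact ⟨φ.not, fun v => by rw [Formula.realize_not, hφ]⟩

theorem imp (hP : D P) (hQ : D Q) : D (fun v => P v → Q v) := by
  obtain ⟨φ, hφ⟩ := hP
  obtain ⟨ψ, hψ⟩ := hQ
  exact ⟨φ.imp ψ, fun v => by rw [Formula.realize_imp, hφ, hψ]⟩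

theorem relabel {P : (β → ℕ) → Prop} (hP : D P) (f : β → α) : D (fun v : α → ℕ => P (v ∘ f)) := by
  obtain ⟨φ, hφ⟩ := hP
  exact ⟨φ.relabel f, fun v => by rw [Formula.realize_relabel, hφ]⟩

theorem eq {s t : (α → ℕ) → ℕ} (hs : DT s) (ht : DT t) : D (fun v => s v = t v) := by
  obtain ⟨σ, hσ⟩ := hs
  obtain ⟨τ, hτ⟩ := ht
  exact ⟨σ.equal τ, fun v => by rw [Formula.realize_equal, hσ, hτ]⟩

/-- finite existential quantification -/
theorem exs [Finite β] {P : (α → ℕ) → (β → ℕ) → Prop}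
    (hP : D (fun w : α ⊕ β → ℕ => P (w ∘ Sum.inl) (w ∘ Sum.inr))) :
    D (fun v => ∃ u, P v u) := by
  obtain ⟨φ, hφ⟩ := hP
  refine ⟨φ.iExs β, fun v => ?_⟩
  rw [Formula.realize_iExs]
  refine exists_congr fun u => ?_
  rw [hφ]
  simp only [Sum.elim_comp_inl, Sum.elim_comp_inr]

theorem ex {P : (α → ℕ) → ℕ → Prop}
    (hP : D (fun w : α ⊕ Unit → ℕ => P (w ∘ Sum.inl) (w (Sum.inr ())))) :
    D (fun v => ∃ x, P v x) := by
  have := D.exs (β := Unit) (P := fun v u => P v (u ())) hP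
  refine this.congr fun v => ?_
  constructor
  · rintro ⟨u, hu⟩; exact ⟨u (), hu⟩
  · rintro ⟨x, hx⟩; exact ⟨fun _ => x, hx⟩

theorem all {P : (α → ℕ) → ℕ → Prop}
    (hP : D (fun w : α ⊕ Unit → ℕ => P (w ∘ Sum.inl) (w (Sum.inr ())))) :
    D (fun v => ∀ x, P v x) := by
  have := (D.ex (P := fun v x => ¬ P v x) hP.not).not
  refine this.congr fun v => ?_
  push Not
  exact Iff.rfl

/-- finite conjunction -/
theorem alls {ι : Type} [Finite ι] {P : ι → (α → ℕ) → Prop} (hP : ∀ i, D (P i)) :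
    D (fun v => ∀ i, P i v) := by
  choose φ hφ using hP
  haveI := Fintype.ofFinite ι
  refine ⟨BoundedFormula.iInf φ, fun v => ?_⟩
  rw [Formula.Realize, BoundedFormula.realize_iInf]
  exact forall_congr' fun i => hφ i v

theorem lt {s t : (α → ℕ) → ℕ} (hs : DT s) (ht : DT t) : D (fun v => s v < t v) := by
  obtain ⟨σ, hσ⟩ := hs
  obtain ⟨τ, hτ⟩ := ht
  have h : D (fun v : α → ℕ => ∃ x : ℕ, s v + x + 1 = t v) := by
    apply D.ex
    apply D.eq
    · refine DT.add (DT.add ⟨σ.relabel Sum.inl, fun w => ?_⟩ (DT.var _)) DT.one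
      rw [Term.realize_relabel, hσ]
    · exact ⟨τ.relabel Sum.inl, fun w => by rw [Term.realize_relabel, hτ]⟩
  refine h.congr fun v => ?_
  constructor
  · rintro ⟨x, hx⟩; omega
  · intro h; exact ⟨t v - s v - 1, by omega⟩

end D

end Pool.Agent.Helper95
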