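import Pool.Agent.Helper95.Setup

set_option autoImplicit false
set_option linter.unusedVariables false
set_option linter.style.haveILetI false
set_option linter.unusedSimpArgs false

namespace Pool.Agent.Helper95

open FirstOrder FirstOrder.Language Filter

/-- classes of the sequences in `M` -/
def MS (M : Set (ℕ → ℕ)) : Set UU := {x | ∃ h ∈ M, mk h = x}

theorem pack {M : Set (ℕ → ℕ)} (c h0 : ℕ → ℕ) (hh0 : h0 ∈ M) {b : UU}
    (hb : b ∈ dclSet (MS M ∪ {mk c})) :
    ∃ (n : ℕ) (φ : Language.ring.Formula ((Fin n ⊕ Unit) ⊕ Unit)) (m : Fin n → ℕ → ℕ),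
      (∀ j, m j ∈ M) ∧ ∀ᶠ i in (uf : Filter ℕ), ∀ z,
        φ.Realize (Sum.elim (Sum.elim (fun j => m j i) (fun _ : Unit => c i))
          (fun _ : Unit => z)) ↔ z = rep b i := by
  classical
  obtain ⟨P, ⟨φ, hφ⟩, hU⟩ := hb
  let V := φ.freeVarFinset
  let e : ↥V ≃ Fin (Fintype.card ↥V) := Fintype.equivFin _
  let m : Fin (Fintype.card ↥V) → ℕ → ℕ := fun j => match (e.symm j).1 with
    | Sum.inl s => if h : (s : UU) ∈ MS M then h.choose else h0
    | Sum.inr _ => h0
  let f : ↥V → (Fin (Fintype.card ↥V) ⊕ Unit) ⊕ Unit := fun v => match v.1 with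
    | Sum.inl s => if (s : UU) ∈ MS M then Sum.inl (Sum.inl (e v)) else Sum.inl (Sum.inr ())
    | Sum.inr _ => Sum.inr ()
  refine ⟨Fintype.card ↥V, φ.restrictFreeVar f, m, ?_, ?_⟩
  · intro j
    show (match (e.symm j).1 with
      | Sum.inl s => if h : (s : UU) ∈ MS M then h.choose else h0
      | Sum.inr _ => h0) ∈ M
    rcases (e.symm j).1 with s | u
    · by_cases h : (s : UU) ∈ MS M
      · simp only [h, dif_pos]
        exact h.choose_spec.1
      · simp only [h, dif_neg, not_false_eq_true]
        exact hh0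
    · exact hh0
  · have h1 : ∀ᶠ i in (uf : Filter ℕ), ∀ v : ↥V, ∀ z,
        Sum.elim (Sum.elim (fun j => m j i) (fun _ : Unit => c i)) (fun _ : Unit => z) (f v) =
        Sum.elim (fun s : ↥(MS M ∪ {mk c}) => rep s i) (fun _ : Unit => z) v.1 := by
      rw [eventually_all]
      intro v
      rcases hv : v.1 with s | u
      · by_cases h : (s : UU) ∈ MS M
        · have hm : m (e v) = h.choose := by
            simp only [m, Equiv.symm_apply_apply, hv, h, dif_pos]
          have hf : f v = Sum.inl (Sum.inl (e v)) := by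
            simp only [f, hv, h, if_true]
          have h2 := rep_mk h.choose
          rw [h.choose_spec.2] at h2
          filter_upwards [h2] with i hi z
          rw [hf]
          simp only [Sum.elim_inl]
          rw [hm]
          exact hi.symm
        · have hf : f v = Sum.inl (Sum.inr ()) := by
            simp only [f, hv, h, if_false]
          have hs : (s : UU) = mk c := by
            rcases s.2 with h' | h'
            · exact absurd h' h
            · exact h'
          have h2 := rep_mk c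
          rw [← hs] at h2
          filter_upwards [h2] with i hi z
          rw [hf]
          simp only [Sum.elim_inl, Sum.elim_inr]
          exact hi.symm
      · have hf : f v = Sum.inr () := by
          simp only [f, hv]
        exact Eventually.of_forall fun i z => by rw [hf]; simp only [Sum.elim_inr]
    filter_upwards [h1, hU] with i hi hUi z
    rw [← hUi z]
    have h4 := hφ (Sum.elim (fun s : ↥(MS M ∪ {mk c}) => rep s i) (fun _ : Unit => z))
    rw [Formula.Realize] at h4 ⊢
    exact (BoundedFormula.realize_restrictFreeVar (φ := φ) (f := f)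
      (v := Sum.elim (Sum.elim (fun j => m j i) (fun _ : Unit => c i)) (fun _ : Unit => z))
      (Sum.elim (fun s : ↥(MS M ∪ {mk c}) => rep s i) (fun _ : Unit => z))
      (fun v => hi v z)).trans h4

/-- restriction of elementary substructures -/
theorem restrict_exists (N K : Language.ring.ElementarySubstructure UU) (h : ∀ x ∈ K, x ∈ N) :
    ∃ K' : Language.ring.ElementarySubstructure N, ∀ x : N, x ∈ K' ↔ (x : UU) ∈ K := by
  let A : Set N := {x | (x : UU) ∈ K}
  have hA : Language.ring.MeetsDefinable A := by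
    intro D' hne hdef
    have hdef' : A.Definable Language.ring {x : Fin 1 → N | x 0 ∈ D'} := hdef
    rw [Set.definable_iff_exists_formula_sum] at hdef'
    obtain ⟨φ, hφ⟩ := hdef'
    have hmem : ∀ b : N, b ∈ D' ↔ φ.Realize (Sum.elim (fun a : A => ((a : N) : UU))
        (fun _ : Fin 1 => (b : UU))) := by
      intro b
      have h1 : (fun _ : Fin 1 => b) ∈ {x : Fin 1 → N | x 0 ∈ D'} ↔ b ∈ D' := Iff.rfl
      rw [← h1, hφ]
      show φ.Realize _ ↔ _
      rw [← N.subtype.map_formula φ]
      have : (N.subtype ∘ (Sum.elim (fun a : A => (a : N)) (fun _ : Fin 1 => b))) =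
          (Sum.elim (fun a : A => ((a : N) : UU)) (fun _ : Fin 1 => (b : UU))) := by
        funext c
        cases c <;> rfl
      rw [this]
    let D'' : Set UU := {b | φ.Realize (Sum.elim (fun a : A => ((a : N) : UU))
        (fun _ : Fin 1 => b))}
    have hne' : D''.Nonempty := by
      obtain ⟨b, hb⟩ := hne
      exact ⟨b, (hmem b).1 hb⟩
    have hdef'' : (K : Set UU).Definable₁ Language.ring D'' := by
      show (K : Set UU).Definable Language.ring _
      rw [Set.definable_iff_exists_formula_sum]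
      refine ⟨φ.relabel (Sum.map (fun a : A => (⟨((a : N) : UU), a.2⟩ : (K : Set UU))) id), ?_⟩
      ext v
      show φ.Realize _ ↔ Formula.Realize _ _
      rw [Formula.realize_relabel]
      have : (Sum.elim (fun a : A => ((a : N) : UU)) (fun _ : Fin 1 => v 0)) =
        (Sum.elim (fun a : (K : Set UU) => (a : UU)) v ∘
          Sum.map (fun a : A => (⟨((a : N) : UU), a.2⟩ : (K : Set UU))) id) := by
        funext c
        cases c with
        | inl a => rfl
        | inr a => exact congrArg v (Subsingleton.elim _ _)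
      rw [this]
    obtain ⟨b, hb, hbK⟩ := K.meetsDefinable D'' hne' hdef''
    exact ⟨⟨b, h b hbK⟩, (hmem _).2 hb, hbK⟩
  refine ⟨hA.toElementarySubstructure, fun x => ?_⟩
  show x ∈ (Substructure.closure Language.ring A : Set N) ↔ _
  rw [hA.closure_eq_self]
  exact Iff.rfl

section

variable {α β : Type}

theorem DT.relabel {s : (β → ℕ) → ℕ} (hs : DT s) (f : β → α) :
    DT (fun v : α → ℕ => s (v ∘ f)) := by
  obtain ⟨σ, hσ⟩ := hs
  exact ⟨σ.relabel f, fun v => by rw [Term.realize_relabel, hσ]⟩

/-- definability of the beta function -/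
theorem D.beta {y p q x : (α → ℕ) → ℕ} (hy : DT y) (hp : DT p) (hq : DT q) (hx : DT x) :
    D (fun v => y v = p v % ((x v + 1) * q v + 1)) := by
  have h1 : D (fun v => ∃ k, p v = k * ((x v + 1) * q v + 1) + y v) := by
    apply D.ex
    apply D.eq
    · exact hp.relabel Sum.inl
    · exact DT.add (DT.mul (DT.var _) (DT.add (DT.mul (DT.add (hx.relabel Sum.inl) DT.one)
        (hq.relabel Sum.inl)) DT.one)) (hy.relabel Sum.inl)
  have h2 : D (fun v => y v < (x v + 1) * q v + 1) :=
    D.lt hy (DT.add (DT.mul (DT.add hx DT.one) hq) DT.one)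
  refine (D.and h1 h2).congr fun v => ?_
  constructor
  · rintro ⟨⟨k, hk⟩, hlt⟩
    rw [hk, add_comm, Nat.add_mul_mod_self_right, Nat.mod_eq_of_lt hlt]
  · intro h
    refine ⟨⟨p v / ((x v + 1) * q v + 1), ?_⟩, ?_⟩
    · rw [h, mul_comm]
      exact (Nat.div_add_mod _ _).symm
    · rw [h]
      exact Nat.mod_lt _ (Nat.succ_pos _)

end

theorem meets_MS {M : Set (ℕ → ℕ)}
    (hsk : ∀ n (φ : Language.ring.Formula (Fin n ⊕ Unit)) (x : Fin n → ℕ → ℕ), (∀ j, x j ∈ M) →
        (fun i => least (fun y => φ.Realize (Sum.elim (fun j => x j i) (fun _ : Unit => y)))) ∈ M) :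
    Language.ring.MeetsDefinable (MS M) := by
  classical
  intro D' hne hdef
  have hdef' : (MS M).Definable Language.ring {x : Fin 1 → UU | x 0 ∈ D'} := hdef
  rw [Set.definable_iff_finitely_definable] at hdef'
  obtain ⟨A0, hA0, hdef''⟩ := hdef'
  rw [Set.definable_iff_exists_formula_sum] at hdef''
  obtain ⟨φ, hφ⟩ := hdef''
  have hmem : ∀ b : UU, b ∈ D' ↔ φ.Realize (Sum.elim (fun a : (A0 : Set UU) => (a : UU))
      (fun _ : Fin 1 => b)) := by
    intro b
    have : (fun _ : Fin 1 => b) ∈ {x : Fin 1 → UU | x 0 ∈ D'} ↔ b ∈ D' := Iff.rfl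
    rw [← this, hφ]
    exact Iff.rfl
  haveI : Fintype ↥(A0 : Set UU) := Fintype.ofFinite _
  let e : ↥(A0 : Set UU) ≃ Fin (Fintype.card ↥(A0 : Set UU)) := Fintype.equivFin _
  have hx : ∀ b : ↥(A0 : Set UU), ∃ h ∈ M, mk h = (b : UU) := fun b => hA0 b.2
  choose x hxM hxe using hx
  let φ' : Language.ring.Formula (Fin (Fintype.card ↥(A0 : Set UU)) ⊕ Unit) :=
    φ.relabel (Sum.map e (fun _ => ()))
  have hφ' : ∀ (τ : ↥(A0 : Set UU) → ℕ) (z : ℕ), φ'.Realize (Sum.elim (fun j => τ (e.symm j))
      (fun _ : Unit => z)) ↔ φ.Realize (Sum.elim τ (fun _ : Fin 1 => z)) := by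
    intro τ z
    rw [Formula.realize_relabel]
    have : (Sum.elim (fun j => τ (e.symm j)) (fun _ : Unit => z) ∘ Sum.map e (fun _ : Fin 1 => ()))
        = Sum.elim τ (fun _ : Fin 1 => z) := by
      funext c
      cases c with
      | inl a => simp
      | inr a => rfl
    rw [this]
  have hy := hsk _ φ' (fun j => x (e.symm j)) (fun j => hxM _)
  refine ⟨mk _, ?_, _, hy, rfl⟩
  obtain ⟨b0, hb0⟩ := hne
  rw [hmem, los'] at hb0
  rw [hmem, los']
  have h3 : ∀ᶠ i in (uf : Filter ℕ), ∀ b : ↥(A0 : Set UU), rep b i = x b i := by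
    rw [eventually_all]
    intro b
    have := rep_mk (x b)
    rwa [hxe b] at this
  filter_upwards [hb0, h3, rep_mk (fun i => least (fun y => φ'.Realize
    (Sum.elim (fun j => x (e.symm j) i) (fun _ : Unit => y))))] with i hi h3i h4i
  have e1 : (fun a => rep (Sum.elim (fun a : ↥(A0 : Set UU) => (a : UU))
      (fun _ : Fin 1 => b0) a) i)
        = Sum.elim (fun a : ↥(A0 : Set UU) => x a i) (fun _ : Fin 1 => rep b0 i) := by
    funext c
    cases c with
    | inl a => exact h3i a
    | inr a => rfl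
  rw [e1] at hi
  have hex : ∃ y, φ'.Realize (Sum.elim (fun j => x (e.symm j) i) (fun _ : Unit => y)) :=
    ⟨rep b0 i, (hφ' (fun a => x a i) _).2 hi⟩
  have h5 := least_spec hex
  have e2 : (fun a => rep (Sum.elim (fun a : ↥(A0 : Set UU) => (a : UU))
      (fun _ : Fin 1 => mk (fun i => least (fun y => φ'.Realize
    (Sum.elim (fun j => x (e.symm j) i) (fun _ : Unit => y))))) a) i)
        = Sum.elim (fun a : ↥(A0 : Set UU) => x a i) (fun _ : Fin 1 => least (fun y => φ'.Realize
    (Sum.elim (fun j => x (e.symm j) i) (fun _ : Unit => y)))) := by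
    funext c
    cases c with
    | inl a => exact h3i a
    | inr a => exact h4i
  rw [e2]
  exact (hφ' (fun a => x a i) _).1 h5

theorem mem_dcl_of {M : Set (ℕ → ℕ)} {β : Type} [Finite β] (m : β → ℕ → ℕ) (hm : ∀ b, m b ∈ M)
    (c y : ℕ → ℕ) {P : (β ⊕ Unit → ℕ) → ℕ → Prop} (hP : D2 P)
    (h : ∀ᶠ i in (uf : Filter ℕ), ∀ z,
      P (Sum.elim (fun b => m b i) (fun _ : Unit => c i)) z ↔ z = y i) :
    mk y ∈ dclSet (MS M ∪ {mk c}) := by
  refine mem_dclSet hP (x := Sum.elim m (fun _ => c)) ?_ ?_
  · rintro (b | u)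
    · exact Or.inl ⟨m b, hm b, rfl⟩
    · exact Or.inr rfl
  · filter_upwards [h] with i hi z
    have : (fun a => Sum.elim m (fun _ : Unit => c) a i) =
        Sum.elim (fun b => m b i) (fun _ : Unit => c i) := by
      funext a
      cases a <;> rfl
    rw [this]
    exact hi z

end Pool.Agent.Helper95
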