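import Pool.Agent.Helper95.Combi

set_option autoImplicit false
set_option linter.unusedVariables false
set_option linter.style.haveILetI false
set_option linter.unusedSimpArgs false

namespace Pool.Agent.Helper95

open UM

/-- a finite separated space -/
structure FS (L : Type) [Lattice L] [BoundedOrder L] where
  X : Type
  fin : Finite X
  ne : Nonempty X
  um : UM L X
  sep : ∀ x y, um.t x y = ⊤ → x = y

section

variable (L : Type) [Lattice L] [BoundedOrder L] [Finite L]

noncomputable def fs0 : FS L :=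
  letI := Fintype.ofFinite L
  { X := {m : L // m ≠ ⊤} → Fin 3
    fin := inferInstance
    ne := inferInstance
    um := test L
    sep := test_top }

variable {L}

theorem next_exists (A : FS L) : ∃ B : FS L, ∀ Θ : B.X → B.X → Prop, Equivalence Θ →
    ∃ f : A.X → B.X, Iso A.um B.um f ∧ ∃ r : L, ∀ x y, Θ (f x) (f y) ↔ r ≤ A.um.t x y := by
  haveI := A.fin
  haveI := A.ne
  obtain ⟨H, hf, hn, h, hs, hH⟩ := canonical_sep A.um
  exact ⟨⟨H, hf, hn, h, hs⟩, hH⟩

noncomputable def next (A : FS L) : FS L := (next_exists A).choose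

theorem next_spec (A : FS L) (Θ : (next A).X → (next A).X → Prop) (hΘ : Equivalence Θ) :
    ∃ f : A.X → (next A).X, Iso A.um (next A).um f ∧
      ∃ r : L, ∀ x y, Θ (f x) (f y) ↔ r ≤ A.um.t x y :=
  (next_exists A).choose_spec Θ hΘ

variable (L)

noncomputable def sq : ℕ → FS L
  | 0 => fs0 L
  | k + 1 => next (sq k)

theorem sq_base (k : ℕ) : ∃ f : (fs0 L).X → (sq L k).X, Iso (fs0 L).um (sq L k).um f := by
  induction k with
  | zero => exact ⟨id, fun _ _ => rfl⟩
  | succ k ih =>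
    obtain ⟨f, hf⟩ := ih
    obtain ⟨g, hg, _⟩ := next_spec (sq L k) (fun x y => x = y) eq_equivalence
    exact ⟨g ∘ f, hf.comp hg⟩

/-- disjoint union -/
def U : Type := Σ k, (sq L k).X

noncomputable def Ut : UM L (U L) where
  t p q := if h : p.1 = q.1 then (sq L q.1).um.t (h ▸ p.2) q.2 else ⊥
  refl' p := by simp [(sq L p.1).um.refl']
  symm' p q := by
    rcases p with ⟨k, x⟩
    rcases q with ⟨l, y⟩
    by_cases h : k = l
    · subst h
      simp [(sq L k).um.symm' x y]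
    · have h' : ¬ l = k := fun h' => h h'.symm
      simp [h, h']
  tri' p q r := by
    rcases p with ⟨k, x⟩
    rcases q with ⟨l, y⟩
    rcases r with ⟨m, z⟩
    by_cases h : k = l
    · subst h
      by_cases h' : k = m
      · subst h'
        simpa using (sq L k).um.tri' x y z
      · simp [h']
    · simp [h]

variable {L}

theorem Ut_sep [Nontrivial L] (p q : U L) (h : (Ut L).t p q = ⊤) : p = q := by
  rcases p with ⟨k, x⟩
  rcases q with ⟨l, y⟩
  by_cases hkl : k = l
  · subst hkl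
    have : (sq L k).um.t x y = ⊤ := by simpa [Ut] using h
    rw [(sq L k).sep x y this]
  · exfalso
    have : (⊥ : L) = ⊤ := by simpa [Ut, hkl] using h
    exact bot_ne_top this

theorem Ut_same (k : ℕ) (x y : (sq L k).X) : (Ut L).t ⟨k, x⟩ ⟨k, y⟩ = (sq L k).um.t x y := by
  simp [Ut]

variable (L)

theorem exists_equiv : Nonempty (ℕ ≃ U L) := by
  haveI : ∀ k, Finite (sq L k).X := fun k => (sq L k).fin
  haveI : ∀ k, Nonempty (sq L k).X := fun k => (sq L k).ne
  haveI : Countable (U L) := inferInstanceAs (Countable (Σ k, (sq L k).X))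
  haveI : Infinite (U L) := by
    refine Infinite.of_injective (fun k : ℕ => (⟨k, Classical.arbitrary _⟩ : U L)) ?_
    intro a b h
    exact congrArg Sigma.fst h
  haveI : Denumerable (U L) := Classical.choice (nonempty_denumerable _)
  exact ⟨(Denumerable.eqv (U L)).symm⟩

/-- The combinatorial core used in the model-theoretic construction. -/
theorem core [Nontrivial L] : ∃ (T : UM L ℕ) (Cp : ℕ → Finset ℕ → Prop),
    (∀ x y, T.t x y = ⊤ → x = y) ∧
    (∀ k, ∃ B, Cp k B) ∧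
    (∀ k B, Cp (k + 1) B → ∀ F : ℕ → ℕ, ∃ B', B' ⊆ B ∧ Cp k B' ∧
      ∃ r : L, ∀ x ∈ B', ∀ y ∈ B', (F x = F y ↔ r ≤ T.t x y)) ∧
    (∀ k B, Cp k B → ∀ s : L, ∃ x ∈ B, ∃ y ∈ B, T.t x y = s) ∧
    (∀ k B, Cp k B → ∃ x ∈ B, ∃ y ∈ B, ∃ z ∈ B, T.t x y = ⊥ ∧ T.t y z = ⊥ ∧ T.t x z = ⊥) := by
  classical
  obtain ⟨e⟩ := exists_equiv L
  let T : UM L ℕ := (Ut L).comap e
  let Cp : ℕ → Finset ℕ → Prop := fun k B => ∃ f : (sq L k).X → ℕ,
    Iso (sq L k).um T f ∧ ∀ n, n ∈ B ↔ ∃ x, f x = n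
  have base : ∀ k B, Cp k B → ∃ f : (fs0 L).X → ℕ, Iso (fs0 L).um T f ∧ ∀ x, f x ∈ B := by
    rintro k B ⟨f, hf, hB⟩
    obtain ⟨g, hg⟩ := sq_base L k
    exact ⟨f ∘ g, hg.comp hf, fun x => (hB _).2 ⟨g x, rfl⟩⟩
  letI := Fintype.ofFinite L
  refine ⟨T, Cp, ?_, ?_, ?_, ?_, ?_⟩
  · intro x y h
    exact e.injective (Ut_sep _ _ h)
  · intro k
    haveI := (sq L k).fin
    haveI := Fintype.ofFinite (sq L k).X
    let emb : (sq L k).X → U L := fun x => ⟨k, x⟩
    let f : (sq L k).X → ℕ := fun x => e.symm (emb x)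
    refine ⟨Finset.univ.image f, f, ?_, ?_⟩
    · intro x y
      have h1 : T.t (f x) (f y) = (Ut L).t (e (e.symm (emb x))) (e (e.symm (emb y))) := rfl
      rw [h1, Equiv.apply_symm_apply, Equiv.apply_symm_apply]
      exact Ut_same k x y
    · intro n
      simp
  · rintro k B ⟨f, hf, hB⟩ F
    obtain ⟨g, hg, r, hr⟩ := next_spec (sq L k) (fun x y => F (f x) = F (f y))
      ⟨fun x => rfl, fun h => h.symm, fun h h' => h.trans h'⟩
    haveI := (sq L k).fin
    haveI := Fintype.ofFinite (sq L k).X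
    refine ⟨Finset.univ.image (f ∘ g), ?_, ⟨f ∘ g, hg.comp hf, fun n => by simp⟩, r, ?_⟩
    · intro n hn
      obtain ⟨x, _, rfl⟩ := Finset.mem_image.mp hn
      exact (hB _).2 ⟨g x, rfl⟩
    · intro x hx y hy
      obtain ⟨x, _, rfl⟩ := Finset.mem_image.mp hx
      obtain ⟨y, _, rfl⟩ := Finset.mem_image.mp hy
      have h1 : T.t (f (g x)) (f (g y)) = (sq L k).um.t x y := (hf _ _).trans (hg _ _)
      show F (f (g x)) = F (f (g y)) ↔ r ≤ T.t (f (g x)) (f (g y))
      exact (hr x y).trans (by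
        constructor
        · intro h; exact h.trans (le_of_eq h1.symm)
        · intro h; exact h.trans (le_of_eq h1))
  · intro k B hB s
    obtain ⟨f, hf, hfB⟩ := base k B hB
    refine ⟨f (bump s 0), hfB _, f (bump s 1), hfB _, ?_⟩
    exact (hf _ _).trans (test_bump s 0 1 (by decide))
  · intro k B hB
    obtain ⟨f, hf, hfB⟩ := base k B hB
    refine ⟨f (bump ⊥ 0), hfB _, f (bump ⊥ 1), hfB _, f (bump ⊥ 2), hfB _, ?_, ?_, ?_⟩
    · exact (hf _ _).trans (test_bump ⊥ 0 1 (by decide))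
    · exact (hf _ _).trans (test_bump ⊥ 1 2 (by decide))
    · exact (hf _ _).trans (test_bump ⊥ 0 2 (by decide))

end

end Pool.Agent.Helper95
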