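import Pool.Agent.Helper95.Final

set_option autoImplicit false
set_option linter.unusedVariables false
set_option linter.style.haveILetI false
set_option linter.unusedSimpArgs false

namespace Pool.Agent.Helper95

open FirstOrder FirstOrder.Language Filter

/-- Every nontrivial finite lattice is an interstructure lattice of elementary substructures of an
ultrapower of the standard model. -/
theorem main_nontrivial (L : Type) [Lattice L] [BoundedOrder L] [Finite L] [Nontrivial L] :
    ∃ (N : Language.ring.ElementarySubstructure UU)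
      (M' : Language.ring.ElementarySubstructure N),
      Nonempty (L ≃o {K : Language.ring.ElementarySubstructure N // M' ≤ K}) := by
  classical
  obtain ⟨T, Cp, hsep, hc1, hc2, hc4, hc5⟩ := core L
  have hc3 : ∀ k B, Cp k B → B.Nonempty := fun k B h => by
    obtain ⟨x, hx, _⟩ := hc4 k B h ⊥
    exact ⟨x, hx⟩
  obtain ⟨M, S, a, hsk, haS, hCp, hset, her, htask, hsub0⟩ := setup L T Cp hc1 hc2 hc3
  obtain ⟨h0, hh0, -⟩ := hset 0
  -- tasks for arbitrary finite index types
  have task' : ∀ {α : Type} [Finite α] (m : α → ℕ → ℕ), (∀ b, m b ∈ M) →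
      ∀ {P : (α ⊕ Unit → ℕ) → ℕ → Prop}, D2 P → ∃ (j : ℕ) (r : L), ∀ᶠ i in (uf : Filter ℕ),
        ∀ x ∈ S j i, ∀ y ∈ S j i,
          (least (P (Sum.elim (fun b => m b i) (fun _ : Unit => x))) =
            least (P (Sum.elim (fun b => m b i) (fun _ : Unit => y))) ↔ r ≤ T.t x y) := by
    intro α _ m hm P hP
    obtain ⟨φ, hφ⟩ := hP
    haveI := Fintype.ofFinite α
    let e : α ≃ Fin (Fintype.card α) := Fintype.equivFin α
    let φ' : Language.ring.Formula ((Fin (Fintype.card α) ⊕ Unit) ⊕ Unit) :=
      φ.relabel (Sum.map (Sum.map e id) id)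
    have hφ' : ∀ i x z, φ'.Realize (Sum.elim (Sum.elim (fun j => m (e.symm j) i)
        (fun _ : Unit => x)) (fun _ : Unit => z)) ↔
        P (Sum.elim (fun b => m b i) (fun _ : Unit => x)) z := by
      intro i x z
      rw [Formula.realize_relabel, hφ]
      have : (Sum.elim (Sum.elim (fun j => m (e.symm j) i) (fun _ : Unit => x))
          (fun _ : Unit => z) ∘ Sum.map (Sum.map e id) id) ∘ Sum.inl =
          Sum.elim (fun b => m b i) (fun _ : Unit => x) := by
        funext c
        rcases c with b | u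
        · simp
        · rfl
      beta_reduce
      rw [this]
      exact Iff.rfl
    obtain ⟨j, hj⟩ := htask _ φ' (fun j => m (e.symm j)) (fun j => hm _)
    refine ⟨j, ?_⟩
    have h1 : ∀ᶠ i in (uf : Filter ℕ), ∃ r : L, ∀ x ∈ S j i, ∀ y ∈ S j i,
          (least (P (Sum.elim (fun b => m b i) (fun _ : Unit => x))) =
            least (P (Sum.elim (fun b => m b i) (fun _ : Unit => y))) ↔ r ≤ T.t x y) := by
      have h2 : ∀ᶠ i in (uf : Filter ℕ), j ≤ i :=
        Nat.hyperfilter_le_atTop (eventually_ge_atTop j)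
      filter_upwards [h2] with i hi
      obtain ⟨r, hr⟩ := hj i hi
      refine ⟨r, fun x hx y hy => ?_⟩
      rw [← hr x hx y hy]
      have e1 : ∀ x, (fun z => φ'.Realize (Sum.elim (Sum.elim (fun j => m (e.symm j) i)
        (fun _ : Unit => x)) (fun _ : Unit => z))) =
          P (Sum.elim (fun b => m b i) (fun _ : Unit => x)) := by
        intro x
        funext z
        exact propext (hφ' i x z)
      rw [e1, e1]
    exact Ultrafilter.eventually_exists_iff.1 h1
  have hge : ∀ j : ℕ, ∀ᶠ i in (uf : Filter ℕ), j ≤ i := fun j =>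
    Nat.hyperfilter_le_atTop (eventually_ge_atTop j)
  -- the elementary substructure generated by `c` over `M`
  let KK : (ℕ → ℕ) → Language.ring.ElementarySubstructure UU := fun c => dcl (MS M ∪ {mk c})
  have hKM : ∀ c, ∀ x ∈ MS M, x ∈ KK c := fun c x hx => subset_dcl _ (Or.inl hx)
  have hKc : ∀ c, mk c ∈ KK c := fun c => subset_dcl _ (Or.inr rfl)
  have hKle : ∀ c d, mk c ∈ KK d → ∀ x ∈ KK c, x ∈ KK d := by
    intro c d h
    refine dcl_le ?_
    rintro x (hx | hx)
    · exact hKM d x hx
    · rw [Set.mem_singleton_iff.1 hx]; exact h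
  choose pr hpr qr hqr hpqr using her
  -- F6
  have F6 : ∀ r s : L, r ≤ s → mk (fun i => er T r (a i)) ∈ KK (fun i => er T s (a i)) := by
    intro r s hrs
    rw [mem_dcl]
    refine mem_dcl_of (β := Fin 2) ![pr r, qr r] ?_ _ _
      (P := fun v z => z = v (Sum.inl 0) % ((v (Sum.inr ()) + 1) * v (Sum.inl 1) + 1)) ?_ ?_
    · intro b
      fin_cases b
      · exact hpr r
      · exact hqr r
    · exact D.beta (DT.var _) (DT.var _) (DT.var _) (DT.var _)
    · refine Eventually.of_forall fun i z => ?_
      show z = pr r i % ((er T s (a i) + 1) * qr r i + 1) ↔ z = er T r (a i)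
      rw [hpqr r i (er T s (a i)) (a i) (haS 0 i (Nat.zero_le _)) (er_le _ _ _), er_er T hrs]
  -- F4
  have F4 : ∀ y : ℕ → ℕ, mk y ∈ KK a → ∃ r : L,
      mk (fun i => er T r (a i)) ∈ KK y ∧ mk y ∈ KK (fun i => er T r (a i)) := by
    intro y hy
    rw [mem_dcl] at hy
    obtain ⟨n, φ, m, hm, hφ⟩ := pack a h0 hh0 hy
    let P : (Fin n ⊕ Unit → ℕ) → ℕ → Prop := fun v z => φ.Realize (Sum.elim v (fun _ : Unit => z))
    have hP : D2 P := by
      refine ⟨φ, fun w => ?_⟩
      have : Sum.elim (w ∘ Sum.inl) (fun _ : Unit => w (Sum.inr ())) = w := by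
        funext c
        rcases c with c | c <;> rfl
      show _ ↔ φ.Realize (Sum.elim (w ∘ Sum.inl) (fun _ : Unit => w (Sum.inr ())))
      rw [this]
    have hG : ∀ᶠ i in (uf : Filter ℕ),
        least (P (Sum.elim (fun l => m l i) (fun _ : Unit => a i))) = y i := by
      filter_upwards [hφ, rep_mk y] with i hi hyi
      have h1 := least_spec (P := P (Sum.elim (fun l => m l i) (fun _ : Unit => a i)))
        ⟨rep (mk y) i, (hi _).2 rfl⟩
      rw [← hyi]
      exact (hi _).1 h1
    obtain ⟨j, r, hr⟩ := task' m hm hP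
    obtain ⟨nB, hnB, pB, hpB, qB, hqB, hB⟩ := hset j
    refine ⟨r, ?_, ?_⟩
    · rw [mem_dcl]
      refine mem_dcl_of (β := Fin n ⊕ Fin 5) (Sum.elim m ![nB, pB, qB, pr r, qr r]) ?_ _ _
        (P := fun v z => ∃ x, x < v (Sum.inl (Sum.inr 0)) ∧
          1 = v (Sum.inl (Sum.inr 1)) % ((x + 1) * v (Sum.inl (Sum.inr 2)) + 1) ∧
          v (Sum.inr ()) = least (P (Sum.elim (fun l => v (Sum.inl (Sum.inl l)))
            (fun _ : Unit => x))) ∧
          z = v (Sum.inl (Sum.inr 3)) % ((x + 1) * v (Sum.inl (Sum.inr 4)) + 1)) ?_ ?_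
      · rintro (b | b)
        · exact hm b
        · fin_cases b
          · exact hnB
          · exact hpB
          · exact hqB
          · exact hpr r
          · exact hqr r
      · apply D.ex
        refine D.and (D.lt (DT.var _) (DT.var _)) (D.and ?_ (D.and ?_ ?_))
        · exact D.beta DT.one (DT.var _) (DT.var _) (DT.var _)
        · have h2 := hP.leastGraph
          refine (D.relabel h2 (fun c : (Fin n ⊕ Unit) ⊕ Unit => match c with
            | Sum.inl (Sum.inl l) => Sum.inl (Sum.inl (Sum.inl (Sum.inl l)))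
            | Sum.inl (Sum.inr _) => Sum.inr ()
            | Sum.inr _ => Sum.inl (Sum.inl (Sum.inr ())))).congr fun w => ?_
          have h3 : ∀ w : (((Fin n ⊕ Fin 5) ⊕ Unit) ⊕ Unit) ⊕ Unit → ℕ,
            (w ∘ fun c : (Fin n ⊕ Unit) ⊕ Unit => match c with
            | Sum.inl (Sum.inl l) => Sum.inl (Sum.inl (Sum.inl (Sum.inl l)))
            | Sum.inl (Sum.inr _) => Sum.inr ()
            | Sum.inr _ => Sum.inl (Sum.inl (Sum.inr ()))) ∘ Sum.inl =
            Sum.elim (fun l => w (Sum.inl (Sum.inl (Sum.inl (Sum.inl l)))))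
              (fun _ : Unit => w (Sum.inr ())) := by
            intro w
            funext c
            rcases c with c | c <;> rfl
          show _ = least (P _) ↔ _ = least (P _)
          rw [h3]
          exact Iff.rfl
        · exact D.beta (DT.var _) (DT.var _) (DT.var _) (DT.var _)
      · filter_upwards [hG, hr, hge j] with i hGi hri hji z
        constructor
        · rintro ⟨x, hx1, hx2, hx3, hx4⟩
          have hx1' : x < nB i := hx1
          have hx2' : 1 = pB i % ((x + 1) * qB i + 1) := hx2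
          have hx3' : y i = least (P (Sum.elim (fun l => m l i) (fun _ : Unit => x))) := hx3
          have hx4' : z = pr r i % ((x + 1) * qr r i + 1) := hx4
          have hxS : x ∈ S j i := (hB i x).2 ⟨hx1', hx2'.symm⟩
          rw [hx4', hpqr r i x x (hsub0 j i hji hxS) le_rfl]
          rw [er_eq]
          apply (hri x hxS (a i) (haS j i hji)).1
          rw [hGi, hx3']
        · rintro rfl
          have hax := haS j i hji
          have hax' := (hB i (a i)).1 hax
          refine ⟨a i, hax'.1, hax'.2.symm, ?_, ?_⟩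
          · exact hGi.symm
          · exact (hpqr r i (a i) (a i) (haS 0 i (Nat.zero_le _)) le_rfl).symm
    · rw [mem_dcl]
      refine mem_dcl_of (β := Fin n ⊕ Fin 5) (Sum.elim m ![nB, pB, qB, pr r, qr r]) ?_ _ _
        (P := fun v z => ∃ x, x < v (Sum.inl (Sum.inr 0)) ∧
          1 = v (Sum.inl (Sum.inr 1)) % ((x + 1) * v (Sum.inl (Sum.inr 2)) + 1) ∧
          v (Sum.inr ()) = v (Sum.inl (Sum.inr 3)) % ((x + 1) * v (Sum.inl (Sum.inr 4)) + 1) ∧
          z = least (P (Sum.elim (fun l => v (Sum.inl (Sum.inl l)))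
            (fun _ : Unit => x)))) ?_ ?_
      · rintro (b | b)
        · exact hm b
        · fin_cases b
          · exact hnB
          · exact hpB
          · exact hqB
          · exact hpr r
          · exact hqr r
      · apply D.ex
        refine D.and (D.lt (DT.var _) (DT.var _)) (D.and ?_ (D.and ?_ ?_))
        · exact D.beta DT.one (DT.var _) (DT.var _) (DT.var _)
        · exact D.beta (DT.var _) (DT.var _) (DT.var _) (DT.var _)
        · have h2 := hP.leastGraph
          refine (D.relabel h2 (fun c : (Fin n ⊕ Unit) ⊕ Unit => match c with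
            | Sum.inl (Sum.inl l) => Sum.inl (Sum.inl (Sum.inl (Sum.inl l)))
            | Sum.inl (Sum.inr _) => Sum.inr ()
            | Sum.inr _ => Sum.inl (Sum.inr ()))).congr fun w => ?_
          have h3 : ∀ w : (((Fin n ⊕ Fin 5) ⊕ Unit) ⊕ Unit) ⊕ Unit → ℕ,
            (w ∘ fun c : (Fin n ⊕ Unit) ⊕ Unit => match c with
            | Sum.inl (Sum.inl l) => Sum.inl (Sum.inl (Sum.inl (Sum.inl l)))
            | Sum.inl (Sum.inr _) => Sum.inr ()
            | Sum.inr _ => Sum.inl (Sum.inr ())) ∘ Sum.inl =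
            Sum.elim (fun l => w (Sum.inl (Sum.inl (Sum.inl (Sum.inl l)))))
              (fun _ : Unit => w (Sum.inr ())) := by
            intro w
            funext c
            rcases c with c | c <;> rfl
          show _ = least (P _) ↔ _ = least (P _)
          rw [h3]
          exact Iff.rfl
      · filter_upwards [hG, hr, hge j] with i hGi hri hji z
        constructor
        · rintro ⟨x, hx1, hx2, hx3, hx4⟩
          have hx1' : x < nB i := hx1
          have hx2' : 1 = pB i % ((x + 1) * qB i + 1) := hx2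
          have hx3' : er T r (a i) = pr r i % ((x + 1) * qr r i + 1) := hx3
          have hx4' : z = least (P (Sum.elim (fun l => m l i) (fun _ : Unit => x))) := hx4
          have hxS : x ∈ S j i := (hB i x).2 ⟨hx1', hx2'.symm⟩
          rw [hpqr r i x x (hsub0 j i hji hxS) le_rfl, er_eq] at hx3'
          rw [hx4', ← hGi]
          apply (hri x hxS (a i) (haS j i hji)).2
          rw [T.symm']; exact hx3'
        · rintro rfl
          have hax := haS j i hji
          have hax' := (hB i (a i)).1 hax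
          refine ⟨a i, hax'.1, hax'.2.symm, ?_, ?_⟩
          · exact (hpqr r i (a i) (a i) (haS 0 i (Nat.zero_le _)) le_rfl).symm
          · exact hGi.symm
  -- F5
  have F5 : ∀ r s : L, mk (fun i => er T (r ⊔ s) (a i)) ∈
      dcl (MS M ∪ {mk (fun i => er T r (a i)), mk (fun i => er T s (a i))}) := by
    intro r s
    obtain ⟨nB, hnB, pB, hpB, qB, hqB, hB⟩ := hset 0
    rw [mem_dcl]
    refine mem_dclSet (α := Fin 9 ⊕ Fin 2)
      (P := fun v z => ∃ x, x < v (Sum.inl 0) ∧
          1 = v (Sum.inl 1) % ((x + 1) * v (Sum.inl 2) + 1) ∧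
          v (Sum.inr 0) = v (Sum.inl 3) % ((x + 1) * v (Sum.inl 4) + 1) ∧
          v (Sum.inr 1) = v (Sum.inl 5) % ((x + 1) * v (Sum.inl 6) + 1) ∧
          z = v (Sum.inl 7) % ((x + 1) * v (Sum.inl 8) + 1)) ?_
      (x := Sum.elim ![nB, pB, qB, pr r, qr r, pr s, qr s, pr (r ⊔ s), qr (r ⊔ s)]
        ![(fun i => er T r (a i)), (fun i => er T s (a i))]) ?_ ?_
    · apply D.ex
      refine D.and (D.lt (DT.var _) (DT.var _)) (D.and ?_ (D.and ?_ (D.and ?_ ?_)))
      · exact D.beta DT.one (DT.var _) (DT.var _) (DT.var _)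
      · exact D.beta (DT.var _) (DT.var _) (DT.var _) (DT.var _)
      · exact D.beta (DT.var _) (DT.var _) (DT.var _) (DT.var _)
      · exact D.beta (DT.var _) (DT.var _) (DT.var _) (DT.var _)
    · rintro (b | b)
      · left
        refine ⟨_, ?_, rfl⟩
        fin_cases b
        · exact hnB
        · exact hpB
        · exact hqB
        · exact hpr r
        · exact hqr r
        · exact hpr s
        · exact hqr s
        · exact hpr (r ⊔ s)
        · exact hqr (r ⊔ s)
      · right
        fin_cases b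
        · exact Or.inl rfl
        · exact Or.inr rfl
    · refine Eventually.of_forall fun i z => ?_
      constructor
      · rintro ⟨x, hx1, hx2, hx3, hx4, hx5⟩
        have hx1' : x < nB i := hx1
        have hx2' : 1 = pB i % ((x + 1) * qB i + 1) := hx2
        have hx3' : er T r (a i) = pr r i % ((x + 1) * qr r i + 1) := hx3
        have hx4' : er T s (a i) = pr s i % ((x + 1) * qr s i + 1) := hx4
        have hx5' : z = pr (r ⊔ s) i % ((x + 1) * qr (r ⊔ s) i + 1) := hx5
        have hxS : x ∈ S 0 i := (hB i x).2 ⟨hx1', hx2'.symm⟩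
        rw [hpqr r i x x hxS le_rfl, er_eq] at hx3'
        rw [hpqr s i x x hxS le_rfl, er_eq] at hx4'
        rw [hx5', hpqr (r ⊔ s) i x x hxS le_rfl, er_eq, T.symm']
        exact sup_le hx3' hx4'
      · rintro rfl
        have hax := haS 0 i (Nat.zero_le _)
        have hax' := (hB i (a i)).1 hax
        refine ⟨a i, hax'.1, hax'.2.symm, ?_, ?_, ?_⟩
        · exact (hpqr r i (a i) (a i) hax le_rfl).symm
        · exact (hpqr s i (a i) (a i) hax le_rfl).symm
        · exact (hpqr (r ⊔ s) i (a i) (a i) hax le_rfl).symm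
  -- F7
  have F7 : ∀ r s : L, mk (fun i => er T r (a i)) ∈ KK (fun i => er T s (a i)) → r ≤ s := by
    intro r s hrs
    rw [mem_dcl] at hrs
    obtain ⟨n, φ, m, hm, hφ⟩ := pack _ h0 hh0 hrs
    let G : ((Fin n ⊕ Fin 4) ⊕ Unit → ℕ) → Prop := fun v =>
      ∃ u, u = v (Sum.inl (Sum.inr 2)) % ((v (Sum.inr ()) + 1) * v (Sum.inl (Sum.inr 3)) + 1) ∧
        ∀ z, ((φ.Realize (Sum.elim (Sum.elim (fun l => v (Sum.inl (Sum.inl l)))
          (fun _ : Unit => u)) (fun _ : Unit => z)) →
          z = v (Sum.inl (Sum.inr 0)) % ((v (Sum.inr ()) + 1) * v (Sum.inl (Sum.inr 1)) + 1)) ∧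
          (z = v (Sum.inl (Sum.inr 0)) % ((v (Sum.inr ()) + 1) * v (Sum.inl (Sum.inr 1)) + 1) →
          φ.Realize (Sum.elim (Sum.elim (fun l => v (Sum.inl (Sum.inl l)))
          (fun _ : Unit => u)) (fun _ : Unit => z))))
    have hGD : D G := by
      apply D.ex
      refine D.and (D.beta (DT.var _) (DT.var _) (DT.var _) (DT.var _)) ?_
      apply D.all
      have hD1 : D (fun w : (((Fin n ⊕ Fin 4) ⊕ Unit) ⊕ Unit) ⊕ Unit → ℕ =>
          φ.Realize (Sum.elim (Sum.elim (fun l => w (Sum.inl (Sum.inl (Sum.inl (Sum.inl l)))))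
          (fun _ : Unit => w (Sum.inl (Sum.inr ())))) (fun _ : Unit => w (Sum.inr ())))) := by
        refine ⟨φ.relabel (Sum.elim (Sum.elim (fun l => Sum.inl (Sum.inl (Sum.inl (Sum.inl l))))
          (fun _ => Sum.inl (Sum.inr ()))) (fun _ => Sum.inr ())), fun w => ?_⟩
        rw [Formula.realize_relabel]
        have : (w ∘ Sum.elim (Sum.elim (fun l => Sum.inl (Sum.inl (Sum.inl (Sum.inl l))))
          (fun _ : Unit => Sum.inl (Sum.inr ()))) (fun _ : Unit => Sum.inr ())) =
          (Sum.elim (Sum.elim (fun l => w (Sum.inl (Sum.inl (Sum.inl (Sum.inl l)))))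
          (fun _ : Unit => w (Sum.inl (Sum.inr ())))) (fun _ : Unit => w (Sum.inr ()))) := by
          funext c
          rcases c with (c | c) | c <;> rfl
        rw [this]
      have hD2 : D (fun w : (((Fin n ⊕ Fin 4) ⊕ Unit) ⊕ Unit) ⊕ Unit → ℕ =>
          w (Sum.inr ()) = w (Sum.inl (Sum.inl (Sum.inl (Sum.inr 0)))) %
            ((w (Sum.inl (Sum.inl (Sum.inr ()))) + 1) *
              w (Sum.inl (Sum.inl (Sum.inl (Sum.inr 1)))) + 1)) :=
        D.beta (DT.var _) (DT.var _) (DT.var _) (DT.var _)
      exact D.and (D.imp hD1 hD2) (D.imp hD2 hD1)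
    let P : ((Fin n ⊕ Fin 4) ⊕ Unit → ℕ) → ℕ → Prop := fun v z => G v ∨ z = 1
    have hP : D2 P := D.or (hGD.relabel Sum.inl) (D.eq (DT.var _) DT.one)
    have hP0 : ∀ v, G v → least (P v) = 0 := by
      intro v hv
      have h1 := (least_iff (P := P v) ⟨0, Or.inl hv⟩ 0).1 ⟨Or.inl hv, fun w hw => by omega⟩
      exact h1.symm
    have hP1 : ∀ v, ¬ G v → least (P v) = 1 := by
      intro v hv
      have h1 := least_spec (P := P v) ⟨1, Or.inr rfl⟩
      rcases h1 with h1 | h1
      · exact absurd h1 hv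
      · exact h1
    obtain ⟨j, q, hq⟩ := task' (Sum.elim m ![pr r, qr r, pr s, qr s]) (by
      rintro (b | b)
      · exact hm b
      · fin_cases b
        · exact hpr r
        · exact hqr r
        · exact hpr s
        · exact hqr s) hP
    -- pick one index
    obtain ⟨i, hqi, hφi, hji, hrepi⟩ := (hq.and (hφ.and ((hge j).and
      (rep_mk (fun i => er T r (a i)))))).exists
    let V : ℕ → ((Fin n ⊕ Fin 4) ⊕ Unit → ℕ) := fun x =>
      Sum.elim (fun b => Sum.elim m ![pr r, qr r, pr s, qr s] b i) (fun _ : Unit => x)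
    have hGV : ∀ x ∈ S j i, G (V x) ↔ ∀ z,
        (φ.Realize (Sum.elim (Sum.elim (fun l => m l i) (fun _ : Unit => er T s x))
          (fun _ : Unit => z)) ↔ z = er T r x) := by
      intro x hx
      have hx0 : x ∈ S 0 i := hsub0 j i hji hx
      have e1 : pr r i % ((x + 1) * qr r i + 1) = er T r x := hpqr r i x x hx0 le_rfl
      have e2 : pr s i % ((x + 1) * qr s i + 1) = er T s x := hpqr s i x x hx0 le_rfl
      have e3 : G (V x) ↔ ∃ u, u = pr s i % ((x + 1) * qr s i + 1) ∧
        ∀ z, ((φ.Realize (Sum.elim (Sum.elim (fun l => m l i)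
          (fun _ : Unit => u)) (fun _ : Unit => z)) → z = pr r i % ((x + 1) * qr r i + 1)) ∧
          (z = pr r i % ((x + 1) * qr r i + 1) →
          φ.Realize (Sum.elim (Sum.elim (fun l => m l i)
          (fun _ : Unit => u)) (fun _ : Unit => z)))) := Iff.rfl
      rw [e3, e1, e2]
      constructor
      · rintro ⟨u, rfl, hu⟩ z
        exact ⟨(hu z).1, (hu z).2⟩
      · intro h
        exact ⟨_, rfl, fun z => ⟨(h z).1, (h z).2⟩⟩
    have haG : G (V (a i)) := by
      rw [hGV (a i) (haS j i hji)]
      intro z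
      rw [hφi z, hrepi]
    obtain ⟨k, hk⟩ := hCp j i hji
    have hval : ∀ x, least (P (V x)) = 0 ∨ least (P (V x)) = 1 := by
      intro x
      by_cases h : G (V x)
      · exact Or.inl (hP0 _ h)
      · exact Or.inr (hP1 _ h)
    have hqbot : q ≤ ⊥ := by
      obtain ⟨x, hx, y, hy, z, hz, hxy, hyz, hxz⟩ := hc5 k _ hk
      have h1 := hqi x hx y hy
      have h2 := hqi y hy z hz
      have h3 := hqi x hx z hz
      rw [hxy] at h1
      rw [hyz] at h2
      rw [hxz] at h3
      rcases hval x with hvx | hvx <;> rcases hval y with hvy | hvy <;>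
        rcases hval z with hvz | hvz
      · exact h1.1 (hvx.trans hvy.symm)
      · exact h1.1 (hvx.trans hvy.symm)
      · exact h3.1 (hvx.trans hvz.symm)
      · exact h2.1 (hvy.trans hvz.symm)
      · exact h2.1 (hvy.trans hvz.symm)
      · exact h3.1 (hvx.trans hvz.symm)
      · exact h1.1 (hvx.trans hvy.symm)
      · exact h1.1 (hvx.trans hvy.symm)
    have hallG : ∀ x ∈ S j i, G (V x) := by
      intro x hx
      by_contra h
      have h1 := (hqi x hx (a i) (haS j i hji)).2 (hqbot.trans bot_le)
      have h2 : least (P (V x)) = 1 := hP1 _ h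
      have h3 : least (P (V (a i))) = 0 := hP0 _ haG
      have h4 : least (P (V x)) = least (P (V (a i))) := h1
      omega
    obtain ⟨x, hx, y, hy, hxy⟩ := hc4 k _ hk s
    have h1 := (hGV x hx).1 (hallG x hx)
    have h2 := (hGV y hy).1 (hallG y hy)
    have h3 : er T s x = er T s y := (er_eq T s x y).2 hxy.ge
    rw [h3] at h1
    have h4 : er T r y = er T r x := (h1 _).1 ((h2 _).2 rfl)
    have h5 := (er_eq T r y x).1 h4
    rw [T.symm', hxy] at h5
    exact h5
  -- the top and bottom
  have hertop : (fun i => er T ⊤ (a i)) = a := by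
    funext i
    have := er_rel T (⊤ : L) (a i)
    exact (hsep _ _ (top_le_iff.1 this)).symm
  let N := KK a
  have hKN : ∀ r : L, ∀ x ∈ KK (fun i => er T r (a i)), x ∈ N := by
    intro r
    apply hKle
    have := F6 r ⊤ le_top
    rwa [hertop] at this
  let MM : Language.ring.ElementarySubstructure UU := (meets_MS hsk).toElementarySubstructure
  have hMM : ∀ x, x ∈ MM ↔ x ∈ MS M := by
    intro x
    show x ∈ (Substructure.closure Language.ring (MS M) : Set UU) ↔ _
    rw [(meets_MS hsk).closure_eq_self]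
  obtain ⟨M', hM'⟩ := restrict_exists N MM (fun x hx => hKM a x ((hMM x).1 hx))
  choose R hR using fun r : L => restrict_exists N (KK (fun i => er T r (a i))) (hKN r)
  have hM'R : ∀ r, M' ≤ R r := by
    intro r x hx
    rw [hR]
    exact hKM _ _ ((hMM _).1 ((hM' x).1 hx))
  have hRle : ∀ r s, R r ≤ R s ↔ r ≤ s := by
    intro r s
    constructor
    · intro h
      apply F7
      have h1 : (⟨mk (fun i => er T r (a i)), hKN r _ (hKc _)⟩ : N) ∈ R r := by
        rw [hR]; exact hKc _
      have h2 := h h1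
      rw [hR] at h2
      exact h2
    · intro h x hx
      rw [hR] at hx ⊢
      exact hKle _ _ (F6 r s h) _ hx
  have hsurj : ∀ K : Language.ring.ElementarySubstructure N, M' ≤ K → ∃ r, R r = K := by
    intro K hK
    have hKmem : ∀ x ∈ MS M, ∃ h : x ∈ N, (⟨x, h⟩ : N) ∈ K := by
      intro x hx
      refine ⟨hKM a x hx, hK ?_⟩
      rw [hM', hMM]
      exact hx
    let Q : L → Prop := fun r => ∃ h : mk (fun i => er T r (a i)) ∈ N,
      (⟨mk (fun i => er T r (a i)), h⟩ : N) ∈ K
    have hQbot : Q ⊥ := by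
      have h1 : mk (fun i => er T ⊥ (a i)) ∈ MM := by
        refine mem_of_uniq MM (α := Fin 0) (P := fun _ z => z = 0)
          (D.eq (DT.var _) DT.zero) (x := Fin.elim0) (fun j => j.elim0) ?_
        refine Eventually.of_forall fun i z => ?_
        have : er T (⊥ : L) (a i) = 0 := by
          have := (least_iff (P := fun y => (⊥ : L) ≤ T.t (a i) y) ⟨0, bot_le⟩ 0).1
            ⟨bot_le, fun w hw => by omega⟩
          exact this.symm
        show z = 0 ↔ z = er T ⊥ (a i)
        rw [this]
      exact hKmem _ ((hMM _).1 h1)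
    have hQsup : ∀ r s, Q r → Q s → Q (r ⊔ s) := by
      intro r s hr hs
      refine dcl_le' (S := MS M ∪ {mk (fun i => er T r (a i)), mk (fun i => er T s (a i))})
        ?_ _ (F5 r s)
      rintro x (hx | hx | hx)
      · exact hKmem x hx
      · rw [hx]; exact hr
      · rw [Set.mem_singleton_iff.1 hx]; exact hs
    haveI := Fintype.ofFinite L
    let r0 : L := (Finset.univ.filter Q).sup id
    have hQr0 : Q r0 := by
      apply Finset.sup_induction hQbot (fun r hr s hs => hQsup r s hr hs)
      intro r hr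
      exact (Finset.mem_filter.1 hr).2
    refine ⟨r0, ?_⟩
    apply SetLike.ext
    intro x
    rw [hR]
    constructor
    · intro hx
      have h1 := dcl_le' (S := MS M ∪ {mk (fun i => er T r0 (a i))}) (N := N) (K := K) (by
        rintro x (hx | hx)
        · exact hKmem x hx
        · rw [Set.mem_singleton_iff.1 hx]; exact hQr0) _ hx
      exact h1.2
    · intro hx
      obtain ⟨y, hy⟩ := mk_surj (x : UU)
      have hyN : mk y ∈ KK a := by rw [hy]; exact x.2
      obtain ⟨r, hr1, hr2⟩ := F4 y hyN
      have hQr : Q r := by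
        refine dcl_le' (S := MS M ∪ {mk y}) ?_ _ hr1
        rintro x' (hx' | hx')
        · exact hKmem x' hx'
        · rw [Set.mem_singleton_iff.1 hx']
          refine ⟨hyN, ?_⟩
          have : (⟨mk y, hyN⟩ : N) = x := Subtype.ext hy
          rw [this]; exact hx
      have hrr0 : r ≤ r0 := Finset.le_sup (f := id) (Finset.mem_filter.2 ⟨Finset.mem_univ _, hQr⟩)
      rw [← hy]
      exact hKle _ _ (F6 r r0 hrr0) _ hr2
  refine ⟨N, M', ⟨?_⟩⟩
  let g : L ↪o {K : Language.ring.ElementarySubstructure N // M' ≤ K} :=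
    OrderEmbedding.ofMapLEIff (fun r => ⟨R r, hM'R r⟩) (fun r s => hRle r s)
  refine RelIso.ofSurjective g ?_
  rintro ⟨K, hK⟩
  obtain ⟨r, hr⟩ := hsurj K hK
  exact ⟨r, Subtype.ext hr⟩

end Pool.Agent.Helper95
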