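import Pool.Agent.Helper95.Main

set_option autoImplicit false
set_option linter.unusedVariables false
set_option linter.style.haveILetI false
set_option linter.unusedSimpArgs false

namespace Pool.Agent.Helper95

open FirstOrder FirstOrder.Language Filter

theorem uu_fun {n : ℕ} (f : Language.ring.Functions n) (x : Fin n → ℕ → ℕ) :
    Structure.funMap f (fun j => mk (x j)) = mk (fun i => Structure.funMap f (fun j => x j i)) :=
  Ultraproduct.funMap_cast f x

theorem uu_neg (x : UU) : Structure.funMap Ring.negFunc ![x] = x := by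
  obtain ⟨f, rfl⟩ := mk_surj x
  have h : (![mk f] : Fin 1 → UU) = fun j => mk ((![f] : Fin 1 → ℕ → ℕ) j) := by
    funext j; fin_cases j; rfl
  rw [h, uu_fun]
  rfl

theorem uu_add (f g : ℕ → ℕ) :
    Structure.funMap Ring.addFunc ![mk f, mk g] = mk (fun i => f i + g i) := by
  have h : (![mk f, mk g] : Fin 2 → UU) = fun j => mk ((![f, g] : Fin 2 → ℕ → ℕ) j) := by
    funext j; fin_cases j <;> rfl
  rw [h, uu_fun]
  rfl

theorem uu_mul (f g : ℕ → ℕ) :
    Structure.funMap Ring.mulFunc ![mk f, mk g] = mk (fun i => f i * g i) := by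
  have h : (![mk f, mk g] : Fin 2 → UU) = fun j => mk ((![f, g] : Fin 2 → ℕ → ℕ) j) := by
    funext j; fin_cases j <;> rfl
  rw [h, uu_fun]
  rfl

theorem uu_zero (e : Fin 0 → UU) :
    (Structure.funMap Ring.zeroFunc e : UU) = mk (fun _ => 0) := by
  have h : e = fun j => mk ((Fin.elim0 : Fin 0 → ℕ → ℕ) j) := by
    funext j; exact j.elim0
  rw [h, uu_fun]
  rfl

theorem uu_one (e : Fin 0 → UU) :
    (Structure.funMap Ring.oneFunc e : UU) = mk (fun _ => 1) := by
  have h : e = fun j => mk ((Fin.elim0 : Fin 0 → ℕ → ℕ) j) := by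
    funext j; exact j.elim0
  rw [h, uu_fun]
  rfl

variable (N : Language.ring.ElementarySubstructure UU)

theorem n_fun {n : ℕ} (f : Language.ring.Functions n) (x : Fin n → N) :
    ((Structure.funMap f x : N) : UU) = Structure.funMap f (fun j => (x j : UU)) := rfl

theorem n_neg (x : N) : Structure.funMap Ring.negFunc ![x] = x := by
  apply Subtype.ext
  rw [n_fun]
  have h : (fun j => ((![x] : Fin 1 → N) j : UU)) = ![(x : UU)] := by
    funext j; fin_cases j; rfl
  rw [h, uu_neg]

theorem n_add (x y : N) : ((Structure.funMap Ring.addFunc ![x, y] : N) : UU) =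
    Structure.funMap Ring.addFunc ![(x : UU), (y : UU)] := by
  rw [n_fun]
  have h : (fun j => ((![x, y] : Fin 2 → N) j : UU)) = ![(x : UU), (y : UU)] := by
    funext j; fin_cases j <;> rfl
  rw [h]

theorem n_mul (x y : N) : ((Structure.funMap Ring.mulFunc ![x, y] : N) : UU) =
    Structure.funMap Ring.mulFunc ![(x : UU), (y : UU)] := by
  rw [n_fun]
  have h : (fun j => ((![x, y] : Fin 2 → N) j : UU)) = ![(x : UU), (y : UU)] := by
    funext j; fin_cases j <;> rfl
  rw [h]

theorem n_zero (e : Fin 0 → N) : ((Structure.funMap Ring.zeroFunc e : N) : UU) =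
    mk (fun _ => 0) := by
  rw [n_fun, uu_zero]

theorem n_one (e : Fin 0 → N) : ((Structure.funMap Ring.oneFunc e : N) : UU) =
    mk (fun _ => 1) := by
  rw [n_fun, uu_one]

theorem n_realize {α : Type} (φ : Language.ring.Formula α) (w : α → N) :
    φ.Realize w ↔ ∀ᶠ i in (uf : Filter ℕ), φ.Realize (fun a => rep (w a : UU) i) := by
  rw [← N.subtype.map_formula φ w, los']
  exact Iff.rfl

theorem n_induction (n : ℕ) (φ : Language.ring.Formula (Fin (n + 1))) (v : Fin n → N)
    (h0 : φ.Realize (Fin.cons (Structure.funMap Ring.zeroFunc Fin.elim0 : N) v :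
      Fin (n + 1) → N))
    (hs : ∀ x : N, φ.Realize (Fin.cons x v : Fin (n + 1) → N) →
      φ.Realize (Fin.cons (Structure.funMap Ring.addFunc
        ![x, Structure.funMap Ring.oneFunc Fin.elim0] : N) v : Fin (n + 1) → N))
    (x : N) : φ.Realize (Fin.cons x v : Fin (n + 1) → N) := by
  by_contra hx
  let P : (Fin n → ℕ) → ℕ → Prop := fun σ y => ¬ φ.Realize (Fin.cons y σ : Fin (n + 1) → ℕ)
  have hP : D2 P := by
    apply D.not
    refine ⟨φ.relabel (Fin.cons (Sum.inr ()) (fun j => Sum.inl j)), fun w => ?_⟩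
    rw [Formula.realize_relabel]
    have : (w ∘ (Fin.cons (Sum.inr ()) (fun j => Sum.inl j) : Fin (n + 1) → Fin n ⊕ Unit)) =
        Fin.cons (w (Sum.inr ())) (w ∘ Sum.inl) := by
      funext j
      refine Fin.cases rfl (fun j => rfl) j
    rw [this]
  have hreal : ∀ (b : N), φ.Realize (Fin.cons b v : Fin (n + 1) → N) ↔
      ∀ᶠ i in (uf : Filter ℕ), ¬ P (fun j => rep (v j : UU) i) (rep (b : UU) i) := by
    intro b
    rw [n_realize]
    apply eventually_congr
    refine Eventually.of_forall fun i => ?_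
    have : (fun a => rep ((Fin.cons b v : Fin (n + 1) → N) a : UU) i) =
        (Fin.cons (rep (b : UU) i) (fun j => rep (v j : UU) i) : Fin (n + 1) → ℕ) := by
      funext j
      refine Fin.cases rfl (fun j => rfl) j
    rw [this]
    simp only [P, not_not]
  have hx' : ∀ᶠ i in (uf : Filter ℕ), P (fun j => rep (v j : UU) i) (rep (x : UU) i) := by
    rw [hreal] at hx
    have := Ultrafilter.eventually_not.2 hx
    filter_upwards [this] with i hi
    exact not_not.1 hi
  let y : ℕ → ℕ := fun i => least (P (fun j => rep (v j : UU) i))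
  have hyU : Uniq (fun v y => P v y ∧ ∀ w, w < y → ¬ P v w) (fun j => rep (v j : UU)) y := by
    filter_upwards [hx'] with i hi z
    exact least_iff ⟨_, hi⟩ z
  have hyN : mk y ∈ N := mem_of_uniq N hP.least (x := fun j => rep (v j : UU))
    (fun j => by rw [mk_rep]; exact (v j).2) hyU
  have hzN : mk (fun i => y i - 1) ∈ N := by
    refine mem_of_uniq N (α := Unit) (P := fun v z => v () = z + 1 ∨ (v () = 0 ∧ z = 0)) ?_
      (x := fun _ => y) (fun _ => hyN) ?_
    · exact D.or (D.eq (DT.var _) (DT.add (DT.var _) DT.one))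
        (D.and (D.eq (DT.var _) DT.zero) (D.eq (DT.var _) DT.zero))
    · refine Eventually.of_forall fun i z => ?_
      show (y i = z + 1 ∨ (y i = 0 ∧ z = 0)) ↔ z = y i - 1
      omega
  -- `0` satisfies the formula
  have h00 : ∀ᶠ i in (uf : Filter ℕ), ¬ P (fun j => rep (v j : UU) i) 0 := by
    rw [hreal, n_zero] at h0
    filter_upwards [h0, rep_mk (fun _ => 0)] with i hi h0i
    rw [h0i] at hi
    exact hi
  -- the predecessor satisfies the formula
  have hz : φ.Realize (Fin.cons (⟨mk (fun i => y i - 1), hzN⟩ : N) v : Fin (n + 1) → N) := by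
    rw [hreal]
    filter_upwards [hx', h00, rep_mk (fun i => y i - 1)] with i hi h0i hri
    rw [hri]
    have h1 := (least_iff ⟨_, hi⟩ (y i)).2 rfl
    apply h1.2
    have : y i ≠ 0 := by
      intro h
      apply h0i
      rw [← h]; exact h1.1
    omega
  have h1 := hs _ hz
  rw [hreal, n_add, n_one] at h1
  rw [uu_add] at h1
  have h2 : ∀ᶠ i in (uf : Filter ℕ), False := by
    filter_upwards [h1, hx', h00, rep_mk (fun i => (y i - 1) + 1)] with i h1i hi h0i hri
    rw [hri] at h1i
    have h3 := (least_iff ⟨_, hi⟩ (y i)).2 rfl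
    have : y i ≠ 0 := by
      intro h
      apply h0i
      rw [← h]; exact h3.1
    apply h1i
    have e : y i - 1 + 1 = y i := by omega
    rw [e]
    exact h3.1
  exact h2.exists.elim fun _ h => h

theorem n_succ_ne (x : N) : Structure.funMap Ring.addFunc
            ![x, Structure.funMap Ring.oneFunc Fin.elim0] ≠
            (Structure.funMap Ring.zeroFunc Fin.elim0 : N) := by
  intro h
  have h' := congrArg (fun z : N => (z : UU)) h
  rw [n_add, n_one, n_zero] at h'
  obtain ⟨f, hf⟩ := mk_surj (x : UU)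
  rw [← hf, uu_add, mk_eq] at h'
  obtain ⟨i, hi⟩ := h'.exists
  omega

theorem n_succ_inj (x y : N) (h : Structure.funMap Ring.addFunc
            ![x, Structure.funMap Ring.oneFunc Fin.elim0] =
            Structure.funMap Ring.addFunc
            ![y, Structure.funMap Ring.oneFunc Fin.elim0]) : x = y := by
  have h' := congrArg (fun z : N => (z : UU)) h
  rw [n_add, n_one, n_add, n_one] at h'
  obtain ⟨f, hf⟩ := mk_surj (x : UU)
  obtain ⟨g, hg⟩ := mk_surj (y : UU)
  apply Subtype.ext
  rw [← hf, ← hg] at h' ⊢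
  rw [uu_add, uu_add, mk_eq] at h'
  rw [mk_eq]
  filter_upwards [h'] with i hi
  omega

theorem n_add_zero (x : N) : Structure.funMap Ring.addFunc
            ![x, Structure.funMap Ring.zeroFunc Fin.elim0] = x := by
  apply Subtype.ext
  rw [n_add, n_zero]
  obtain ⟨f, hf⟩ := mk_surj (x : UU)
  rw [← hf, uu_add]
  rfl

theorem n_add_succ (x y : N) : Structure.funMap Ring.addFunc
            ![x, Structure.funMap Ring.addFunc
              ![y, Structure.funMap Ring.oneFunc Fin.elim0] ] =
            Structure.funMap Ring.addFunc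
            ![Structure.funMap Ring.addFunc ![x, y],
              Structure.funMap Ring.oneFunc Fin.elim0] := by
  apply Subtype.ext
  rw [n_add, n_add, n_one, n_add, n_add, n_one]
  obtain ⟨f, hf⟩ := mk_surj (x : UU)
  obtain ⟨g, hg⟩ := mk_surj (y : UU)
  rw [← hf, ← hg, uu_add, uu_add, uu_add, uu_add]
  rfl

theorem n_mul_zero (x : N) : Structure.funMap Ring.mulFunc
            ![x, Structure.funMap Ring.zeroFunc Fin.elim0] =
            (Structure.funMap Ring.zeroFunc Fin.elim0 : N) := by
  apply Subtype.ext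
  rw [n_mul, n_zero]
  obtain ⟨f, hf⟩ := mk_surj (x : UU)
  rw [← hf, uu_mul]
  rfl

theorem n_mul_succ (x y : N) : Structure.funMap Ring.mulFunc
            ![x, Structure.funMap Ring.addFunc
              ![y, Structure.funMap Ring.oneFunc Fin.elim0] ] =
            Structure.funMap Ring.addFunc
            ![Structure.funMap Ring.mulFunc ![x, y], x] := by
  apply Subtype.ext
  rw [n_mul, n_add, n_one, n_add, n_mul]
  obtain ⟨f, hf⟩ := mk_surj (x : UU)
  obtain ⟨g, hg⟩ := mk_surj (y : UU)
  rw [← hf, ← hg, uu_add, uu_mul, uu_mul, uu_add]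
  rfl

end Pool.Agent.Helper95
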