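import Pool.Agent.Helper95.Defn

set_option autoImplicit false
set_option linter.unusedVariables false
set_option linter.style.haveILetI false
set_option linter.unusedSimpArgs false

namespace Pool.Agent.Helper95

open FirstOrder FirstOrder.Language Filter

/-- a nonprincipal ultrafilter on `ℕ` -/
noncomputable abbrev uf : Ultrafilter ℕ := Filter.hyperfilter ℕ

/-- the ultrapower of the standard model -/
abbrev UU : Type := (uf : Filter ℕ).Product (fun _ : ℕ => ℕ)

noncomputable instance uuStr : Language.ring.Structure UU := inferInstance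

/-- class of a sequence -/
noncomputable def mk (f : ℕ → ℕ) : UU := (f : (uf : Filter ℕ).Product (fun _ : ℕ => ℕ))

theorem mk_surj (x : UU) : ∃ f, mk f = x := Quotient.exists_rep x

noncomputable def rep (x : UU) : ℕ → ℕ := (mk_surj x).choose

theorem mk_rep (x : UU) : mk (rep x) = x := (mk_surj x).choose_spec

theorem mk_eq {f g : ℕ → ℕ} : mk f = mk g ↔ ∀ᶠ i in (uf : Filter ℕ), f i = g i :=
  Quotient.eq''

theorem rep_mk (f : ℕ → ℕ) : ∀ᶠ i in (uf : Filter ℕ), rep (mk f) i = f i :=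
  mk_eq.1 (mk_rep (mk f))

theorem los {α : Type} (φ : Language.ring.Formula α) (x : α → ℕ → ℕ) :
    φ.Realize (fun a => mk (x a)) ↔ ∀ᶠ i in (uf : Filter ℕ), φ.Realize (fun a => x a i) :=
  Ultraproduct.realize_formula_cast φ x

theorem los' {α : Type} (φ : Language.ring.Formula α) (x : α → UU) :
    φ.Realize x ↔ ∀ᶠ i in (uf : Filter ℕ), φ.Realize (fun a => rep (x a) i) := by
  rw [← los]
  simp only [mk_rep]

/-- binary definable predicate -/
def D2 {α : Type} (P : (α → ℕ) → ℕ → Prop) : Prop :=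
  D (fun w : α ⊕ Unit → ℕ => P (w ∘ Sum.inl) (w (Sum.inr ())))

/-- `y` is almost everywhere the unique solution of `P` -/
def Uniq {α : Type} (P : (α → ℕ) → ℕ → Prop) (x : α → ℕ → ℕ) (y : ℕ → ℕ) : Prop :=
  ∀ᶠ i in (uf : Filter ℕ), ∀ z, P (fun a => x a i) z ↔ z = y i

theorem Uniq.formula {α : Type} {P : (α → ℕ) → ℕ → Prop} {x : α → ℕ → ℕ} {y : ℕ → ℕ}
    (h : Uniq P x y) {φ : Language.ring.Formula (α ⊕ Unit)}
    (hφ : ∀ w : α ⊕ Unit → ℕ, φ.Realize w ↔ P (w ∘ Sum.inl) (w (Sum.inr ()))) (b : UU) :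
    φ.Realize (Sum.elim (fun a => mk (x a)) (fun _ : Unit => b)) ↔ b = mk y := by
  obtain ⟨f, rfl⟩ := mk_surj b
  have h1 : (Sum.elim (fun a => mk (x a)) (fun _ : Unit => mk f)) =
      fun c => mk (Sum.elim x (fun _ => f) c) := by
    funext c
    cases c <;> rfl
  rw [h1, los, mk_eq]
  apply eventually_congr
  filter_upwards [h] with i hi
  rw [hφ, ← hi]
  exact Iff.rfl

theorem mem_of_uniq (K : Language.ring.ElementarySubstructure UU) {α : Type}
    {P : (α → ℕ) → ℕ → Prop} (hP : D2 P) {x : α → ℕ → ℕ} (hx : ∀ a, mk (x a) ∈ K) {y : ℕ → ℕ}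
    (h : Uniq P x y) : mk y ∈ K := by
  obtain ⟨φ, hφ⟩ := hP
  let D' : Set UU := {b | φ.Realize (Sum.elim (fun a => mk (x a)) (fun _ : Unit => b))}
  have hne : D'.Nonempty := ⟨mk y, (h.formula hφ _).2 rfl⟩
  have hdef : (K : Set UU).Definable₁ Language.ring D' := by
    show (K : Set UU).Definable Language.ring _
    rw [Set.definable_iff_exists_formula_sum]
    refine ⟨φ.relabel (Sum.map (fun a => (⟨mk (x a), hx a⟩ : (K : Set UU))) (fun _ => (0 : Fin 1))),
      ?_⟩
    ext v
    show φ.Realize _ ↔ Formula.Realize _ _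
    rw [Formula.realize_relabel]
    have : (Sum.elim (fun a => mk (x a)) (fun _ : Unit => v 0)) =
      (Sum.elim (fun a : (K : Set UU) => (a : UU)) v ∘
        Sum.map (fun a => (⟨mk (x a), hx a⟩ : (K : Set UU))) (fun _ => (0 : Fin 1))) := by
      funext c
      cases c <;> rfl
    rw [this]
  obtain ⟨b, hb, hbK⟩ := K.meetsDefinable D' hne hdef
  have : b = mk y := (h.formula hφ b).1 hb
  rw [← this]; exact hbK

/-- Version for elementary substructures of elementary substructures. -/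
theorem mem_of_uniq' (N : Language.ring.ElementarySubstructure UU)
    (K : Language.ring.ElementarySubstructure N) {α : Type}
    {P : (α → ℕ) → ℕ → Prop} (hP : D2 P) {x : α → ℕ → ℕ}
    (hx : ∀ a, ∃ h : mk (x a) ∈ N, (⟨mk (x a), h⟩ : N) ∈ K) {y : ℕ → ℕ}
    (h : Uniq P x y) : ∃ h : mk y ∈ N, (⟨mk y, h⟩ : N) ∈ K := by
  have hy : mk y ∈ N := mem_of_uniq N hP (fun a => (hx a).1) h
  refine ⟨hy, ?_⟩
  obtain ⟨φ, hφ⟩ := hP
  let s : α → N := fun a => ⟨mk (x a), (hx a).1⟩
  have hs : ∀ a, s a ∈ K := fun a => (hx a).2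
  let D' : Set N := {b | φ.Realize (Sum.elim s (fun _ : Unit => b))}
  have key : ∀ b : N, b ∈ D' ↔ (b : UU) = mk y := by
    intro b
    show φ.Realize _ ↔ _
    rw [← N.subtype.map_formula φ, ← h.formula hφ (b : UU)]
    have : (N.subtype ∘ (Sum.elim s (fun _ : Unit => b))) =
        (Sum.elim (fun a => mk (x a)) (fun _ : Unit => (b : UU))) := by
      funext c
      cases c <;> rfl
    rw [this]
  have hne : D'.Nonempty := ⟨⟨mk y, hy⟩, (key _).2 rfl⟩
  have hdef : (K : Set N).Definable₁ Language.ring D' := by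
    show (K : Set N).Definable Language.ring _
    rw [Set.definable_iff_exists_formula_sum]
    refine ⟨φ.relabel (Sum.map (fun a => (⟨s a, hs a⟩ : (K : Set N))) (fun _ => (0 : Fin 1))), ?_⟩
    ext v
    show φ.Realize _ ↔ Formula.Realize _ _
    rw [Formula.realize_relabel]
    have : (Sum.elim s (fun _ : Unit => v 0)) =
      (Sum.elim (fun a : (K : Set N) => (a : N)) v ∘
        Sum.map (fun a => (⟨s a, hs a⟩ : (K : Set N))) (fun _ => (0 : Fin 1))) := by
      funext c
      cases c <;> rfl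
    rw [this]
  obtain ⟨b, hb, hbK⟩ := K.meetsDefinable D' hne hdef
  have : (b : UU) = mk y := (key b).1 hb
  have hb' : b = ⟨mk y, hy⟩ := Subtype.ext this
  rw [← hb']; exact hbK

open Classical in
/-- least witness -/
noncomputable def least (P : ℕ → Prop) : ℕ := if h : ∃ y, P y then Nat.find h else 0

theorem least_spec {P : ℕ → Prop} (h : ∃ y, P y) : P (least P) := by
  classical
  unfold least
  rw [dif_pos h]
  exact Nat.find_spec h

theorem least_iff {P : ℕ → Prop} (h : ∃ y, P y) (z : ℕ) :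
    (P z ∧ ∀ w, w < z → ¬ P w) ↔ z = least P := by
  classical
  unfold least
  rw [dif_pos h]
  constructor
  · rintro ⟨h1, h2⟩
    exact ((Nat.find_eq_iff h).2 ⟨h1, fun n hn => h2 n hn⟩).symm
  · rintro rfl
    exact ⟨Nat.find_spec h, fun w hw => Nat.find_min h hw⟩

/-- The graph of the least-witness function (with default `0`). -/
theorem least_graph (P : ℕ → Prop) (z : ℕ) :
    ((P z ∧ ∀ w, w < z → ¬ P w) ∨ (z = 0 ∧ ∀ w, ¬ P w)) ↔ z = least P := by
  classical
  by_cases h : ∃ y, P y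
  · rw [← least_iff h]
    constructor
    · rintro (h' | ⟨_, h'⟩)
      · exact h'
      · obtain ⟨y, hy⟩ := h
        exact absurd hy (h' y)
    · intro h'; exact Or.inl h'
  · have h0 : least P = 0 := by unfold least; rw [dif_neg h]
    rw [h0]
    push Not at h
    constructor
    · rintro (⟨h', _⟩ | ⟨h', _⟩)
      · exact absurd h' (h z)
      · exact h'
    · intro h'; exact Or.inr ⟨h', h⟩

theorem D2.least {α : Type} {P : (α → ℕ) → ℕ → Prop} (hP : D2 P) :
    D2 (fun v y => P v y ∧ ∀ w, w < y → ¬ P v w) := by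
  refine D.and hP ?_
  apply D.all
  apply D.imp
  · exact D.lt (DT.var _) (DT.var _)
  · apply D.not
    exact hP.relabel (fun c : α ⊕ Unit => match c with
      | Sum.inl a => Sum.inl (Sum.inl a)
      | Sum.inr u => Sum.inr u)

theorem D2.leastGraph {α : Type} {P : (α → ℕ) → ℕ → Prop} (hP : D2 P) :
    D2 (fun v y => y = Helper95.least (P v)) := by
  have h1 : D2 (fun v y => y = 0 ∧ ∀ w, ¬ P v w) := by
    refine D.and (D.eq (DT.var _) DT.zero) ?_
    apply D.all
    apply D.not
    exact hP.relabel (fun c : α ⊕ Unit => match c with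
      | Sum.inl a => Sum.inl (Sum.inl a)
      | Sum.inr u => Sum.inr u)
  refine (D.or hP.least h1).congr fun w => ?_
  exact least_graph _ _

/-- definable closure -/
def dclSet (S : Set UU) : Set UU :=
  {b | ∃ P : (S → ℕ) → ℕ → Prop, D2 P ∧ Uniq P (fun s => rep s) (rep b)}

theorem mem_dclSet {S : Set UU} {α : Type} [Finite α] {P : (α → ℕ) → ℕ → Prop} (hP : D2 P)
    {x : α → ℕ → ℕ} (hx : ∀ a, mk (x a) ∈ S) {y : ℕ → ℕ} (h : Uniq P x y) :
    mk y ∈ dclSet S := by
  refine ⟨fun σ z => P (fun a => σ ⟨mk (x a), hx a⟩) z, ?_, ?_⟩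
  · exact hP.relabel (Sum.map (fun a => (⟨mk (x a), hx a⟩ : S)) id)
  · have h1 : ∀ᶠ i in (uf : Filter ℕ), ∀ a, rep (mk (x a)) i = x a i := by
      rw [eventually_all]
      exact fun a => rep_mk _
    filter_upwards [h, h1, rep_mk y] with i hi h1i h2i z
    rw [h2i, ← hi z]
    simp only [h1i]

theorem subset_dclSet (S : Set UU) : S ⊆ dclSet S := by
  intro b hb
  obtain ⟨f, rfl⟩ := mk_surj b
  refine mem_dclSet (α := Unit) (P := fun v z => z = v ()) ?_ (x := fun _ => f) (fun _ => hb) ?_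
  · exact D.eq (DT.var _) (DT.var _)
  · exact Eventually.of_forall fun i z => Iff.rfl

theorem meets_dclSet (S : Set UU) : Language.ring.MeetsDefinable (dclSet S) := by
  classical
  intro D' hne hdef
  have hdef' : (dclSet S).Definable Language.ring {x : Fin 1 → UU | x 0 ∈ D'} := hdef
  rw [Set.definable_iff_finitely_definable] at hdef'
  obtain ⟨A0, hA0, hdef''⟩ := hdef'
  rw [Set.definable_iff_exists_formula_sum] at hdef''
  obtain ⟨φ, hφ⟩ := hdef''
  have hmem : ∀ b : UU, b ∈ D' ↔ φ.Realize (Sum.elim (fun a : (A0 : Set UU) => (a : UU))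
      (fun _ : Fin 1 => b)) := by
    intro b
    have : (fun _ : Fin 1 => b) ∈ {x : Fin 1 → UU | x 0 ∈ D'} ↔ b ∈ D' := Iff.rfl
    rw [← this, hφ]
    exact Iff.rfl
  have hPex : ∀ b : (A0 : Set UU), ∃ P : (S → ℕ) → ℕ → Prop,
      D2 P ∧ Uniq P (fun s => rep s) (rep b) := fun b => hA0 b.2
  choose P hPD hPU using hPex
  let Q : (↥(A0 : Set UU) → ℕ) → ℕ → Prop := fun τ y =>
    φ.Realize (Sum.elim τ (fun _ : Fin 1 => y))
  have hQ : D2 Q := by
    refine ⟨φ.relabel (Sum.map id (fun _ => ())), fun w => ?_⟩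
    rw [Formula.realize_relabel]
    show _ ↔ φ.Realize _
    have : w ∘ Sum.map id (fun _ : Fin 1 => ()) =
        Sum.elim (w ∘ Sum.inl) (fun _ : Fin 1 => w (Sum.inr ())) := by
      funext c
      cases c <;> rfl
    rw [this]
  let R : (S → ℕ) → ℕ → Prop := fun σ y =>
    ∃ τ : ↥(A0 : Set UU) → ℕ, (∀ b, P b σ (τ b)) ∧ (Q τ y ∧ ∀ w, w < y → ¬ Q τ w)
  have hR : D2 R := by
    apply D.exs
    apply D.and
    · apply D.alls
      intro b
      exact (hPD b).relabel (fun c : S ⊕ Unit => match c with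
        | Sum.inl a => Sum.inl (Sum.inl a)
        | Sum.inr u => Sum.inr b)
    · exact hQ.least.relabel (fun c : (A0 : Set UU) ⊕ Unit => match c with
        | Sum.inl a => Sum.inr a
        | Sum.inr u => Sum.inl (Sum.inr u))
  obtain ⟨b0, hb0⟩ := hne
  have hQb0 : ∀ᶠ i in (uf : Filter ℕ), Q (fun a => rep a i) (rep b0 i) := by
    have h1 := (hmem b0).1 hb0
    rw [los'] at h1
    filter_upwards [h1] with i hi
    have : (fun a => rep (Sum.elim (fun a : (A0 : Set UU) => (a : UU)) (fun _ : Fin 1 => b0) a) i)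
        = Sum.elim (fun a : (A0 : Set UU) => rep a i) (fun _ : Fin 1 => rep b0 i) := by
      funext c
      cases c <;> rfl
    rw [this] at hi
    exact hi
  let y : ℕ → ℕ := fun i => least (Q (fun a => rep a i))
  refine ⟨mk y, ?_, ?_⟩
  · rw [hmem, los']
    filter_upwards [hQb0, rep_mk y] with i hi hyi
    have h2 : Q (fun a => rep a i) (y i) := least_spec ⟨_, hi⟩
    have : (fun a => rep (Sum.elim (fun a : (A0 : Set UU) => (a : UU)) (fun _ : Fin 1 => mk y) a) i)
        = Sum.elim (fun a : (A0 : Set UU) => rep a i) (fun _ : Fin 1 => y i) := by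
      funext c
      cases c
      · rfl
      · exact hyi
    rw [this]
    exact h2
  · refine ⟨R, hR, ?_⟩
    have h3 : ∀ᶠ i in (uf : Filter ℕ), ∀ b : (A0 : Set UU),
        ∀ z, P b (fun s => rep s i) z ↔ z = rep b i := by
      rw [eventually_all]
      exact fun b => hPU b
    filter_upwards [h3, hQb0, rep_mk y] with i hi hq hyi z
    rw [hyi]
    constructor
    · rintro ⟨τ, hτ, hz⟩
      have hτ' : τ = fun a : ↥(A0 : Set UU) => rep a i := by
        funext b
        exact (hi b _).1 (hτ b)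
      rw [hτ'] at hz
      exact (least_iff ⟨_, hq⟩ z).1 hz
    · intro hz
      exact ⟨fun a : ↥(A0 : Set UU) => rep a i, fun b => (hi b _).2 rfl, (least_iff ⟨_, hq⟩ z).2 hz⟩

/-- The definable closure as an elementary substructure. -/
noncomputable def dcl (S : Set UU) : Language.ring.ElementarySubstructure UU :=
  (meets_dclSet S).toElementarySubstructure

theorem mem_dcl {S : Set UU} {b : UU} : b ∈ dcl S ↔ b ∈ dclSet S := by
  show b ∈ (Substructure.closure Language.ring (dclSet S) : Set UU) ↔ _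
  rw [(meets_dclSet S).closure_eq_self]

theorem subset_dcl (S : Set UU) : S ⊆ dcl S := fun b hb => mem_dcl.2 (subset_dclSet S hb)

theorem dcl_le {S : Set UU} {K : Language.ring.ElementarySubstructure UU} (h : ∀ x ∈ S, x ∈ K) :
    ∀ x ∈ dcl S, x ∈ K := by
  intro b hb
  rw [mem_dcl] at hb
  obtain ⟨P, hP, hU⟩ := hb
  have := mem_of_uniq K hP (x := fun s : S => rep s) (fun s => by rw [mk_rep]; exact h _ s.2) hU
  rwa [mk_rep] at this

theorem dcl_le' {S : Set UU} {N : Language.ring.ElementarySubstructure UU}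
    {K : Language.ring.ElementarySubstructure N}
    (h : ∀ x ∈ S, ∃ h : x ∈ N, (⟨x, h⟩ : N) ∈ K) :
    ∀ x ∈ dcl S, ∃ h : x ∈ N, (⟨x, h⟩ : N) ∈ K := by
  intro b hb
  rw [mem_dcl] at hb
  obtain ⟨P, hP, hU⟩ := hb
  have := mem_of_uniq' N K hP (x := fun s : S => rep s) (fun s => by
    rw [mk_rep]; exact h _ s.2) hU
  rwa [mk_rep] at this

end Pool.Agent.Helper95
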