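import Pool.Agent.Helper95.Interface
import Pool.Agent.Helper95.Ultra

set_option autoImplicit false
set_option linter.unusedVariables false
set_option linter.style.haveILetI false
set_option linter.unusedSimpArgs false

namespace Pool.Agent.Helper95

open FirstOrder FirstOrder.Language Filter

/-- closure under countably many finitary operations is countable -/
theorem exists_closed (I : Type) [Countable I] (ar : I → ℕ) (op : ∀ i, (Fin (ar i) → ℕ) → ℕ) :
    ∃ M : Set (ℕ → ℕ), M.Countable ∧ (fun n => n) ∈ M ∧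
      ∀ i (x : Fin (ar i) → ℕ → ℕ), (∀ j, x j ∈ M) → (fun n => op i (fun j => x j n)) ∈ M := by
  haveI : Encodable I := Encodable.ofCountable I
  let β : Option I → Type := fun o => match o with
    | none => Empty
    | some i => Fin (ar i)
  haveI : ∀ o, Fintype (β o) := fun o => match o with
    | none => inferInstanceAs (Fintype Empty)
    | some i => inferInstanceAs (Fintype (Fin (ar i)))
  haveI : ∀ o, Encodable (β o) := fun o => match o with
    | none => inferInstanceAs (Encodable Empty)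
    | some i => inferInstanceAs (Encodable (Fin (ar i)))
  let ev : WType β → (ℕ → ℕ) := WType.elim (ℕ → ℕ) (fun p => match p with
    | ⟨none, _⟩ => fun n => n
    | ⟨some i, x⟩ => fun n => op i (fun j => x j n))
  refine ⟨Set.range ev, Set.countable_range ev, ⟨WType.mk none Empty.elim, rfl⟩, ?_⟩
  intro i x hx
  choose w hw using hx
  refine ⟨WType.mk (some i) w, ?_⟩
  show (fun n => op i (fun j => ev (w j) n)) = _
  simp only [hw]

/-- Gödel coding of finite functions. -/
theorem exists_code (n : ℕ) (f : ℕ → ℕ) : ∃ p q : ℕ, ∀ x, x < n → p % ((x + 1) * q + 1) = f x := by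
  let l : List ℕ := (List.range n).map f
  refine ⟨(Nat.unbeta l).unpair.1, (Nat.unbeta l).unpair.2, fun x hx => ?_⟩
  have hl : l.length = n := by simp [l]
  have h := Nat.beta_unbeta_coe l ⟨x, by rw [hl]; exact hx⟩
  simp only [Nat.beta] at h
  rw [h]
  simp [l]

section

variable {L : Type} [Lattice L] [BoundedOrder L]

/-- canonical representative of the `r`-class -/
noncomputable def er (T : UM L ℕ) (r : L) (x : ℕ) : ℕ := least (fun y => r ≤ T.t x y)

theorem er_rel (T : UM L ℕ) (r : L) (x : ℕ) : r ≤ T.t x (er T r x) :=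
  least_spec (P := fun y => r ≤ T.t x y) ⟨x, by rw [T.refl']; exact le_top⟩

theorem er_le (T : UM L ℕ) (r : L) (x : ℕ) : er T r x ≤ x := by
  by_contra h
  push Not at h
  have := (least_iff (P := fun y => r ≤ T.t x y) ⟨x, by rw [T.refl']; exact le_top⟩
    (er T r x)).2 rfl
  exact this.2 x h (by rw [T.refl']; exact le_top)

theorem er_eq (T : UM L ℕ) (r : L) (x y : ℕ) : er T r x = er T r y ↔ r ≤ T.t x y := by
  constructor
  · intro h
    have h1 := er_rel T r x
    have h2 := er_rel T r y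
    rw [← h, T.symm'] at h2
    exact (le_inf h1 h2).trans (T.tri' _ _ _)
  · intro h
    unfold er
    congr 1
    funext z
    apply propext
    constructor
    · intro h'
      rw [T.symm'] at h
      exact (le_inf h h').trans (T.tri' _ _ _)
    · intro h'
      exact (le_inf h h').trans (T.tri' _ _ _)

theorem er_er (T : UM L ℕ) {r s : L} (h : r ≤ s) (x : ℕ) : er T r (er T s x) = er T r x := by
  rw [er_eq, T.symm']
  exact h.trans (er_rel T s x)

end

/-- The data extracted from the combinatorial core. -/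
theorem setup (L : Type) [Lattice L] [BoundedOrder L] [Finite L] (T : UM L ℕ)
    (Cp : ℕ → Finset ℕ → Prop)
    (h1 : ∀ k, ∃ B, Cp k B)
    (h2 : ∀ k B, Cp (k + 1) B → ∀ F : ℕ → ℕ, ∃ B', B' ⊆ B ∧ Cp k B' ∧
      ∃ r : L, ∀ x ∈ B', ∀ y ∈ B', (F x = F y ↔ r ≤ T.t x y))
    (h3 : ∀ k B, Cp k B → B.Nonempty) :
    ∃ (M : Set (ℕ → ℕ)) (S : ℕ → ℕ → Finset ℕ) (a : ℕ → ℕ),
      (∀ n (φ : Language.ring.Formula (Fin n ⊕ Unit)) (x : Fin n → ℕ → ℕ), (∀ j, x j ∈ M) →
        (fun i => least (fun y => φ.Realize (Sum.elim (fun j => x j i) (fun _ : Unit => y)))) ∈ M) ∧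
      (∀ j i, j ≤ i → a i ∈ S j i) ∧
      (∀ j i, j ≤ i → ∃ k, Cp k (S j i)) ∧
      (∀ j, ∃ nB ∈ M, ∃ p ∈ M, ∃ q ∈ M, ∀ i x, x ∈ S j i ↔
        (x < nB i ∧ p i % ((x + 1) * q i + 1) = 1)) ∧
      (∀ r : L, ∃ p ∈ M, ∃ q ∈ M, ∀ i x x', x' ∈ S 0 i → x ≤ x' →
        p i % ((x + 1) * q i + 1) = er T r x) ∧
      (∀ n (φ : Language.ring.Formula ((Fin n ⊕ Unit) ⊕ Unit)) (m : Fin n → ℕ → ℕ),
        (∀ j, m j ∈ M) → ∃ j, ∀ i, j ≤ i → ∃ r : L, ∀ x ∈ S j i, ∀ y ∈ S j i,
          (least (fun z => φ.Realize (Sum.elim (Sum.elim (fun j => m j i) (fun _ : Unit => x))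
            (fun _ : Unit => z))) =
           least (fun z => φ.Realize (Sum.elim (Sum.elim (fun j => m j i) (fun _ : Unit => y))
            (fun _ : Unit => z))) ↔ r ≤ T.t x y)) ∧
      (∀ j i, j ≤ i → S j i ⊆ S 0 i) := by
  classical
  -- choice functions
  have hch : ∀ (k : ℕ) (B : Finset ℕ) (F : ℕ → ℕ), ∃ B' : Finset ℕ, Cp (k + 1) B →
      (B' ⊆ B ∧ Cp k B' ∧ ∃ r : L, ∀ x ∈ B', ∀ y ∈ B', (F x = F y ↔ r ≤ T.t x y)) := by
    intro k B F
    by_cases h : Cp (k + 1) B
    · obtain ⟨B', hB'⟩ := h2 k B h F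
      exact ⟨B', fun _ => hB'⟩
    · exact ⟨∅, fun h' => absurd h' h⟩
  choose ch hch using hch
  choose B0 hB0 using h1
  choose cp cq hc using exists_code
  let dec : ℕ → Finset ℕ := fun c => (Encodable.decode (α := Finset ℕ) c).getD ∅
  have hdec : ∀ B : Finset ℕ, dec (Encodable.encode B) = B := by
    intro B; simp [dec]
  let FF : ∀ n, Language.ring.Formula ((Fin n ⊕ Unit) ⊕ Unit) → (Fin n → ℕ) → ℕ → ℕ :=
    fun n φ m x => least (fun z => φ.Realize (Sum.elim (Sum.elim m (fun _ : Unit => x))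
            (fun _ : Unit => z)))
  let bd : ℕ → ℕ := fun c => (dec c).sup id + 1
  let ind : ℕ → ℕ → ℕ := fun c x => if x ∈ dec c then 1 else 0
  -- index type of the operations
  let I : Type := (Σ n, Language.ring.Formula (Fin n ⊕ Unit)) ⊕
    ((Σ n, Language.ring.Formula ((Fin n ⊕ Unit) ⊕ Unit)) ⊕ (Fin 5 ⊕ (L × Bool)))
  haveI : Countable I := inferInstance
  let un : Fin 5 ⊕ (L × Bool) → ℕ → ℕ := fun o c => match o with
    | Sum.inl 0 => bd c
    | Sum.inl 1 => cp (bd c) (ind c)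
    | Sum.inl 2 => cq (bd c) (ind c)
    | Sum.inl 3 => c - 1
    | Sum.inl 4 => Encodable.encode (B0 c)
    | Sum.inr (r, false) => cp (bd c) (er T r)
    | Sum.inr (r, true) => cq (bd c) (er T r)
  let ar : I → ℕ := fun i => match i with
    | Sum.inl ⟨n, _⟩ => n
    | Sum.inr (Sum.inl ⟨n, _⟩) => n + 2
    | Sum.inr (Sum.inr _) => 1
  let op : ∀ i, (Fin (ar i) → ℕ) → ℕ := fun i => match i with
    | Sum.inl ⟨n, φ⟩ => fun v => least (fun y => φ.Realize (Sum.elim v (fun _ : Unit => y)))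
    | Sum.inr (Sum.inl ⟨n, φ⟩) => fun (v : Fin (n + 2) → ℕ) =>
        Encodable.encode (ch (v 0 - 1) (dec (v 1)) (FF n φ (fun j => v j.succ.succ)))
    | Sum.inr (Sum.inr o) => fun v => un o (v (0 : Fin 1))
  obtain ⟨M, hMc, hMid, hM⟩ := exists_closed I ar op
  have hMun : ∀ o (c : ℕ → ℕ), c ∈ M → (fun n => un o (c n)) ∈ M := by
    intro o c hcM
    exact hM (Sum.inr (Sum.inr o)) (fun _ => c) (fun _ => hcM)
  have hMsk : ∀ n (φ : Language.ring.Formula (Fin n ⊕ Unit)) (x : Fin n → ℕ → ℕ), (∀ j, x j ∈ M) →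
        (fun i => least (fun y => φ.Realize (Sum.elim (fun j => x j i) (fun _ : Unit => y)))) ∈ M :=
    fun n φ x hx => hM (Sum.inl ⟨n, φ⟩) x hx
  have hMch : ∀ n (φ : Language.ring.Formula ((Fin n ⊕ Unit) ⊕ Unit)) (m : Fin n → ℕ → ℕ)
      (k c : ℕ → ℕ), (∀ j, m j ∈ M) → k ∈ M → c ∈ M →
      (fun i => Encodable.encode (ch (k i - 1) (dec (c i)) (FF n φ (fun j => m j i)))) ∈ M := by
    intro n φ m k c hm hk hcM
    have := hM (Sum.inr (Sum.inl ⟨n, φ⟩)) (Fin.cons k (Fin.cons c m)) (by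
      intro j
      refine Fin.cases hk (fun j => ?_) j
      refine Fin.cases hcM (fun j => ?_) j
      exact hm j)
    exact this
  -- the tasks
  let Task : Type := Σ n, Language.ring.Formula ((Fin n ⊕ Unit) ⊕ Unit) × (Fin n → M)
  haveI : Countable M := hMc.to_subtype
  haveI : Countable Task := inferInstance
  haveI : Nonempty Task := ⟨⟨0, ⊤, Fin.elim0⟩⟩
  obtain ⟨task, htask⟩ := exists_surjective_nat Task
  let stepc : ℕ → (ℕ → ℕ) → (ℕ → ℕ) := fun j c i =>
    Encodable.encode (ch (i - j - 1) (dec (c i))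
      (FF (task j).1 (task j).2.1 (fun l => ((task j).2.2 l).1 i)))
  let C : ℕ → (ℕ → ℕ) := fun j => Nat.rec (fun i => Encodable.encode (B0 i)) stepc j
  let S : ℕ → ℕ → Finset ℕ := fun j i => dec (C j i)
  have hC0 : C 0 = fun i => Encodable.encode (B0 i) := rfl
  have hCs : ∀ j, C (j + 1) = stepc j (C j) := fun j => rfl
  have hsub : ∀ j : ℕ, (fun i => i - j) ∈ M := by
    intro j
    induction j with
    | zero => exact hMid
    | succ j ih =>
      have := hMun (Sum.inl 3) _ ih
      have e : (fun n => un (Sum.inl 3) (n - j)) = fun i => i - (j + 1) := by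
        funext i
        show i - j - 1 = i - (j + 1)
        omega
      rw [e] at this
      exact this
  have hCM : ∀ j, C j ∈ M := by
    intro j
    induction j with
    | zero => exact hMun (Sum.inl 4) _ hMid
    | succ j ih =>
      rw [hCs]
      exact hMch _ _ (fun l => ((task j).2.2 l).1) (fun i => i - j) (C j)
        (fun l => ((task j).2.2 l).2) (hsub j) ih
  have hSs : ∀ j i, S (j + 1) i = ch (i - j - 1) (S j i)
      (FF (task j).1 (task j).2.1 (fun l => ((task j).2.2 l).1 i)) := by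
    intro j i
    show dec (C (j + 1) i) = _
    rw [hCs]
    exact hdec _
  have hCp : ∀ j i, j ≤ i → Cp (i - j) (S j i) := by
    intro j
    induction j with
    | zero =>
      intro i _
      show Cp (i - 0) (dec (C 0 i))
      rw [hC0]
      simp only [Nat.sub_zero]
      rw [hdec]
      exact hB0 i
    | succ j ih =>
      intro i hi
      have hji := ih i (by omega)
      have e : i - j = (i - j - 1) + 1 := by omega
      rw [e] at hji
      have := (hch _ _ (FF (task j).1 (task j).2.1 (fun l => ((task j).2.2 l).1 i)) hji).2.1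
      rw [← hSs] at this
      have e2 : i - (j + 1) = i - j - 1 := by omega
      rw [e2]
      exact this
  have hstep : ∀ j i, j + 1 ≤ i → S (j + 1) i ⊆ S j i ∧
      ∃ r : L, ∀ x ∈ S (j + 1) i, ∀ y ∈ S (j + 1) i,
        (FF (task j).1 (task j).2.1 (fun l => ((task j).2.2 l).1 i) x =
         FF (task j).1 (task j).2.1 (fun l => ((task j).2.2 l).1 i) y ↔ r ≤ T.t x y) := by
    intro j i hi
    have hji := hCp j i (by omega)
    have e : i - j = (i - j - 1) + 1 := by omega
    rw [e] at hji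
    have := hch _ _ (FF (task j).1 (task j).2.1 (fun l => ((task j).2.2 l).1 i)) hji
    rw [← hSs] at this
    exact ⟨this.1, this.2.2⟩
  have hmono : ∀ i j j', j ≤ j' → j' ≤ i → S j' i ⊆ S j i := by
    intro i j j' hjj'
    induction j', hjj' using Nat.le_induction with
    | base => intro _; exact Finset.Subset.refl _
    | succ j' hj' ih =>
      intro hi
      exact (hstep j' i hi).1.trans (ih (by omega))
  have hne : ∀ i, (S i i).Nonempty := fun i => h3 _ _ (hCp i i le_rfl)
  let a : ℕ → ℕ := fun i => (hne i).choose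
  have ha : ∀ i, a i ∈ S i i := fun i => (hne i).choose_spec
  refine ⟨M, S, a, hMsk, ?_, ?_, ?_, ?_, ?_, ?_⟩
  · intro j i hji
    exact hmono i j i hji le_rfl (ha i)
  · intro j i hji
    exact ⟨_, hCp j i hji⟩
  · intro j
    refine ⟨_, hMun (Sum.inl 0) _ (hCM j), _, hMun (Sum.inl 1) _ (hCM j), _,
      hMun (Sum.inl 2) _ (hCM j), ?_⟩
    intro i x
    show x ∈ S j i ↔ (x < bd (C j i) ∧
      cp (bd (C j i)) (ind (C j i)) % ((x + 1) * cq (bd (C j i)) (ind (C j i)) + 1) = 1)
    constructor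
    · intro hx
      have hlt : x < bd (C j i) := Nat.lt_succ_of_le (Finset.le_sup (f := id) hx)
      refine ⟨hlt, ?_⟩
      rw [hc _ _ _ hlt]
      exact if_pos hx
    · rintro ⟨hlt, hx⟩
      rw [hc _ _ _ hlt] at hx
      by_contra hn
      have : ind (C j i) x = 0 := if_neg hn
      omega
  · intro r
    refine ⟨_, hMun (Sum.inr (r, false)) _ (hCM 0), _, hMun (Sum.inr (r, true)) _ (hCM 0), ?_⟩
    intro i x x' hx' hxx'
    show cp (bd (C 0 i)) (er T r) % ((x + 1) * cq (bd (C 0 i)) (er T r) + 1) = er T r x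
    have hlt : x < bd (C 0 i) := by
      have : x' < bd (C 0 i) := Nat.lt_succ_of_le (Finset.le_sup (f := id) hx')
      omega
    exact hc _ _ _ hlt
  · intro n φ m hm
    obtain ⟨j, hj⟩ := htask ⟨n, φ, fun l => ⟨m l, hm l⟩⟩
    refine ⟨j + 1, fun i hi => ?_⟩
    obtain ⟨r, hr⟩ := (hstep j i hi).2
    rw [hj] at hr
    exact ⟨r, hr⟩
  · intro j i hji
    exact hmono i 0 j (Nat.zero_le _) hji

end Pool.Agent.Helper95
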